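import Pool.Agent.Helper56.TOF.Statement
import Pool.Agent.Helper30.CIR.Goals

/-!
# Project TOF (MP_f32c9c_an): the packets

`f = A 1` is the time-one map of a flow `A` on `M`.  The perturbation is `g = A 1 ∘ h`, `h x = A (u x) x`, `u =
1/al - 1 + th`.  On a line `s ↦ A s x` the function `th` is concentrated near centres `a i` (passes), and in the
coordinate `v = al (s - a i)` the map `g` is `v ↦ Psi (Psi⁻¹ v + 1)`, where `Psi = id` for `v ≤ 0` and `Psi` is for `v ≥ 1`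
the lift of the Moebius map `w ↦ (w + c) / (1 + c w)`, `w = e^{2 π i q v}`.
-/

set_option autoImplicit false

open Set Filter Topology MeasureTheory

open scoped ContDiff

namespace Pool.Agent.Helper56.TOF

open Pool.Agent.Helper56.RZ Pool.Agent.Helper30.CIR

/-! ## one dimensional functions -/

/-- `arg (1 + z) / π` -/
noncomputable def eF (z : ℂ) : ℝ := (1 + z).arg / Real.pi

/-- the straightening map of a pass -/
noncomputable def Psi (q : ℕ) (c u : ℝ) : ℝ :=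
  u - Real.smoothTransition u * eF ((c : ℂ) * ee (q * u)) / q

/-- a profile function: smooth for `‖z‖ < z0`, `|e| < 2`, zero for `z = 0` and off `-1 < u < 5/2` -/
structure PF (z0 : ℝ) (Φ : ℂ × ℝ × ℝ → ℝ) : Prop where
  pos : 0 < z0
  le : z0 ≤ 1 / 10
  smooth : ContDiffOn ℝ ∞ Φ {v | ‖v.1‖ < z0 ∧ |v.2.2| < 2}
  zero : ∀ u e, Φ (0, u, e) = 0
  off : ∀ z u e, ‖z‖ < z0 → |e| ≤ 1 → (u ≤ -1 ∨ 5 / 2 ≤ u) → Φ (z, u, e) = 0

/-- profile functions for the perturbed map and for its inverse -/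
structure Pair (z0 : ℝ) (Φ Φ' : ℂ × ℝ × ℝ → ℝ) : Prop where
  pf : PF z0 Φ
  pf' : PF z0 Φ'
  step : ∀ (q : ℕ) (c u : ℝ), 1 ≤ q → 0 ≤ c → c < z0 →
    Psi q c u + 1 + Φ ((c : ℂ) * ee (q * Psi q c u), Psi q c u, 1 / q) / q = Psi q c (u + 1)
  step' : ∀ (q : ℕ) (c u : ℝ), 1 ≤ q → 0 ≤ c → c < z0 →
    Psi q c u - 1 + Φ' ((c : ℂ) * ee (q * Psi q c u), Psi q c u, 1 / q) / q = Psi q c (u - 1)

/-- PACKET PSI (elementary properties of `Psi`).  `ee (q u)` has norm `1`.  `|arg (1 + z)| ≤ π ‖z‖` for `‖z‖ ≤ 1/2`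
(e.g. `|arg v| ≤ (π/2) |Im v| / ‖v‖` for `Re v > 0`, `Real.mul_le_sin` for the angle `|arg v| ≤ π/2`), so `|eF z| ≤ ‖z‖`.  Derivative: for `v u = 1 + c ee (q
u)` (real part positive) `arg v = Im log v`, `d/du (arg v) = Im (2 π i q c ee (q u) / v) = 2 π q Re (a / (1 + a))`, `a = c ee (q u)`; so
`Psi' = 1 - ρ' eF a / q - 2 ρ Re (a / (1 + a))`, `ρ = smoothTransition`, `|ρ'| ≤ C'` (`ρ'` is continuous and vanishes outside
`[0, 1]`).  For `u ≥ 1` : `1 - 2 Re (a / (1 + a)) = (1 - ‖a‖²) / ‖1 + a‖²`; at `u = 1` use that `ρ'(1) = 0` (maximum of `ρ`).  Surjective: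
intermediate value theorem. -/
def StmtPSI : Prop := ∃ C : ℝ, 1 ≤ C ∧ ∀ (q : ℕ) (c : ℝ), 1 ≤ q → 0 ≤ c → c ≤ 1 / 10 →
  Function.Surjective (Psi q c) ∧ ∀ u : ℝ,
  (u ≤ 0 → Psi q c u = u) ∧ (1 ≤ u → Psi q c u = u - eF ((c : ℂ) * ee (q * u)) / q) ∧
  |Psi q c u - u| ≤ c / q ∧ HasDerivAt (Psi q c) (deriv (Psi q c) u) u ∧
  |deriv (Psi q c) u - 1| ≤ C * c ∧ (u ≤ 0 → deriv (Psi q c) u = 1) ∧
  (1 ≤ u → deriv (Psi q c) u = (1 - c ^ 2) / ‖1 + (c : ℂ) * ee (q * u)‖ ^ 2) ∧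
  |eF ((c : ℂ) * ee (q * u))| ≤ c ∧
  ee (-eF ((c : ℂ) * ee (q * u))) * ee (q * u) =
    (ee (q * u) + c) / (1 + (c : ℂ) * ee (q * u))

/-- PACKET PRO (the profile functions).  For `z0` small the map `κ ↦ R (z, u, e, κ) = ρ (u + e κ) eF (z ee κ)` (`ρ =
smoothTransition`) has a `κ`-derivative of absolute value `≤ 1/2` for all `‖z‖ < z0`, `|e| < 2`, `u`, `κ` (see PSI: `|eF z| ≤ ‖z‖`, `d/dκ eF (z
ee κ) = 2 Re (a / (1 + a))`, `a = z ee κ`), so there is exactly one `κ = κ (z, u, e)` with `κ = R (z, u, e, κ)`, and `|κ| ≤ ‖z‖`.  It is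
`C^∞`: `(z, u, e, κ) ↦ (z, u, e, κ - R)` has an invertible derivative at every point (`ContDiffAt.toOpenPartialHomeomorph` or
`HasStrictFDerivAt`, `ContDiffAt.to_localInverse`), the local inverse gives `κ` because of uniqueness.  `Φ = κ - ρ (u + 1 + e κ) eF
(z ee κ)`, `Φ' = κ - ρ (u - 1 + e κ) eF (z ee κ)`.  `z = 0` : `κ = 0`.  `u ≤ 0` : `κ = 0`.  `u ≥ 5/2` : the values of `ρ` are `1`.  Steps: for `v = Psi q c
u`, `e = 1/q`, `z = c ee (q v)` one has `κ = ρ u eF (c ee (q u))`, since `v + κ/q = u` and `z ee κ = c ee (q v + κ) = c ee (q u)`;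
`ee (q (u + 1)) = ee (q u)` because `q` is an integer. -/
def StmtPRO : Prop := ∀ z1 : ℝ, 0 < z1 → ∃ z0 ≤ z1, ∃ Φ Φ' : ℂ × ℝ × ℝ → ℝ, Pair z0 Φ Φ'

/-! ## the orbit on a line -/

/-- the shift of the line before pass `i` -/
noncomputable def RR (q : ℕ) (al : ℝ) (a c : ℕ → ℝ) : ℕ → ℝ
  | 0 => 0
  | i + 1 => RR q al a c i -
      eF ((c i : ℂ) * ee (q * (al * (RR q al a c i - a i)))) / (q * al)

/-- the phase before pass `i` -/
noncomputable def ww (q : ℕ) (a c : ℕ → ℝ) (i : ℕ) (al : ℝ) : ℂ :=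
  ee (q * (al * (RR q al a c i - a i)))

/-- the logarithm of the derivative of the passes `i < n` -/
noncomputable def Lam (q : ℕ) (a c : ℕ → ℝ) (al : ℝ) (S : Finset ℕ) : ℝ :=
  ∑ i ∈ S, (Real.log (1 - c i ^ 2) - 2 * Real.log ‖1 + (c i : ℂ) * ww q a c i al‖)

/-- the passes of a line: centres `a i`, amplitudes `c i ≤ c0`, `d` is the function `th` on the line -/
structure Line (Φ : ℂ × ℝ × ℝ → ℝ) (q : ℕ) (al c0 : ℝ) (a c : ℕ → ℝ) (d : ℝ → ℝ) : Prop where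
  a0 : 3 ≤ a 0
  gap : ∀ i, a i + 7 ≤ a (i + 1)
  c0 : ∀ i, 0 ≤ c i ∧ c i ≤ c0
  near : ∀ i s, |s - a i| ≤ 7 / 2 →
    d s = Φ ((c i : ℂ) * ee (q * (al * (s - a i))), al * (s - a i), 1 / q) / (q * al)
  far : ∃ e0 > 0, ∀ s, -e0 < s → (∀ i, 7 / 2 < |s - a i|) → d s = 0

/-- PACKET ORB (the orbit on a line; from PSI).  Write `R = RR q al a c`, `Ψ i = Psi q (c i)`, `ξ i k = al (R i - a i) + k`,
`w i = ww q a c i al`, `S` the orbit.  `|R (i+1) - R i| ≤ c0 ≤ 1/10`, so `|R i| ≤ i/10`.  Induction on `k`, for all `i` at once.  `k = 0`: the assumption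
`a (i-1) + 13/5 ≤ R i ≤ i/10` is false for `i ≥ 1` (`a (i-1) ≥ 3 + 7 (i-1)`); `i = 0`: `ξ 0 0 = - al a 0 ≤ 0`.  Step, first case: the
assumptions hold for `(i, k)`.  So `S k = a i + Ψ i (ξ) / al`, `ξ = ξ i k`.  If `|S k - a i| ≤ 7/2`: `near` and `Pair.step` give `S (k+1)
= a i + Ψ i (ξ + 1) / al`; moreover `al (s - a i) + 1 + al d s = F (al (s - a i))` near `s = S k` for the function `F = Ψ i ∘ (· + 1) ∘
(Ψ i)⁻¹`, so `(1 + d' (S k)) Ψ i' (ξ) = Ψ i' (ξ + 1)`: differentiate the identity `Pair.step` along `u ↦ Psi q c u` (chain rule; `d` is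
differentiable because `Φ` is; at `|S k - a i| = 7/2` the point is off the support, see next).  If `S k < a i - 7/2`: `ξ + 1 ≤ 0` and `d = 0` near `S k`: near
a point `s` with `a (i-1) + 5/2 < s < a i - 1/al` all values of `d` are `0` (`far`, or `near` and `PF.off`); the same for `a i + 5/2 < s < a
(i+1) - 1/al`, and for `i = 0` near every `s` with `0 ≤ s < a 0 - 1/al`.  If `S k > a i + 7/2` : `ξ ≥ 1`, `Ψ i (ξ + 1) = Ψ i (ξ) + 1` and the same for the derivatives (`ee (q (ξ + 1)) = ee (q ξ)`).  Second case: `i ≥ 1` and `R i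
+ k/al < a (i-1) + 13/5 ≤ R i + (k+1)/al`: then the assumptions hold for `(i-1, k)`; as in the first case `S (k+1) = a (i-1) +
Ψ (i-1) (ξ (i-1) (k+1)) / al` with `ξ (i-1) (k+1) ≥ 1`, which is `R i + (k+1)/al` by the definition of `R i` (`ee (q (ξ + k)) = ee (q
ξ)`), and `ξ i (k+1) ≤ 0`, `Ψ i = id` there. -/
def StmtORB : Prop := ∀ (z0 : ℝ) (Φ Φ' : ℂ × ℝ × ℝ → ℝ), Pair z0 Φ Φ' →
  ∀ (q : ℕ) (al c0 : ℝ) (a c : ℕ → ℝ) (d : ℝ → ℝ), 1 ≤ q → 1 ≤ al → al ≤ 11 / 10 → 0 ≤ c0 →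
  c0 < z0 → Line Φ q al c0 a c d → ∀ S : ℕ → ℝ, S 0 = 0 →
  (∀ k, S (k + 1) = S k + 1 / al + d (S k)) → ∀ k i : ℕ,
  (∀ j, i = j + 1 → a j + 13 / 5 ≤ RR q al a c i + k / al) →
  RR q al a c i + k / al ≤ a (i + 1) - 3 / 2 →
  S k = a i + Psi q (c i) (al * (RR q al a c i - a i) + k) / al ∧
  ∏ j ∈ Finset.range k, (1 + deriv d (S j)) =
    (∏ j ∈ Finset.range i, (1 - c j ^ 2) / ‖1 + (c j : ℂ) * ww q a c j al‖ ^ 2) *
      deriv (Psi q (c i)) (al * (RR q al a c i - a i) + k)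

/-- PACKET CLK (the clock; from PSI, ORB).  Let `k = ⌊al n⌋₊`, so `|k/al - n| ≤ 1`.  There is `i` with the window of ORB for `k` (take the
least `i` with `R i + k/al ≤ a (i+1) - 3/2`; for `i = j + 1` minimality gives `R j + k/al > a i - 3/2 ≥ a j + 11/2`, and `|R i - R j| ≤
1/10`).  `|R i| ≤ i c0 / q`.  By ORB all partial products are positive and `1 + deriv d (S j) > 0`, `∑ log (1 + deriv d (S j)) = Lam
(range i) + log Ψ'(..)`, `|log Ψ'| ≤ 2 C c0` if `C c0 ≤ 1/2`.  `|Lam {j}| ≤ 3 c0`.  The symmetric difference of `range i` and `{j | a j < n}`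
has at most `3 + i c0 / q` elements (gap `7`), and `i ≤ n` (`7 i ≤ a i ≤ n + 2 + i c0/q ..`).  So the error is at most `2 C c0 + 3 c0 (3 + n c0/q)`. -/
def StmtCLK : Prop := ∃ C : ℝ, 1 ≤ C ∧ ∀ (z0 : ℝ) (Φ Φ' : ℂ × ℝ × ℝ → ℝ), Pair z0 Φ Φ' →
  ∀ (q : ℕ) (al c0 : ℝ) (a c : ℕ → ℝ) (d : ℝ → ℝ), 1 ≤ q → 1 ≤ al → al ≤ 11 / 10 → 0 ≤ c0 →
  c0 < z0 → C * c0 ≤ 1 / 2 → Line Φ q al c0 a c d → ∀ S : ℕ → ℝ, S 0 = 0 →
  (∀ k, S (k + 1) = S k + 1 / al + d (S k)) → ∀ n : ℕ,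
  |∑ j ∈ Finset.range ⌊al * n⌋₊, Real.log (1 + deriv d (S j)) -
      Lam q a c al ((Finset.range n).filter (fun i => a i < n))| ≤ C * c0 * (1 + n * c0 / q)

/-! ## averages over `al` -/

/-- mean over `[α, α + h]` -/
noncomputable def Av (h : ℝ) (f : ℝ → ℝ) (α : ℝ) : ℝ := (∫ t in (0 : ℝ)..h, f (α + t)) / h

/-- `L` is holomorphic in the lower half plane and decays -/
structure Hol (A κ : ℝ) (L : ℂ → ℂ) : Prop where
  cont : ContinuousOn L {z | z.im ≤ 0}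
  diff : DifferentiableOn ℂ L {z | z.im < 0}
  bound : ∀ z, z.im ≤ 0 → ‖L z‖ ≤ A * Real.exp (κ * z.im)

/-- PACKET HO1 (means of `Hol` functions).  `L1 z = (1/h) ∫_0^h L (z + t) dt`.  Continuity: dominated convergence (locally
bounded).  Holomorphic for `Im z < 0` (derivative under the integral, or a theorem on parameter integrals; locally the derivative
is bounded by Cauchy's estimate).  Bound: Cauchy's theorem for the rectangle with the corners `z, z + h, z + h - i Y, z - i Y`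
(`Complex.integral_boundary_rect_eq_zero_of_continuousOn_of_differentiableOn`) and `Y → ∞`: `|∫_0^h L (z + t) dt| ≤
∫_0^∞ (|L (z - i y)| + |L (z + h - i y)|) dy ≤ 2 A e^{κ Im z} / κ`. -/
def StmtHO1 : Prop := ∀ (A κ h : ℝ) (L : ℂ → ℂ), 0 ≤ A → 0 < κ → 0 < h → Hol A κ L →
  Hol (A * (2 / (h * κ))) κ (fun z => (∫ t in (0 : ℝ)..h, L (z + t)) / h)

/-- PACKET HO2 (the phases are holomorphic; from PSI, HO1).  By PSI (last part) and the definition of `RR`, `ww` satisfies `ww 0 = ee (- q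
al a 0)`, `ww (i+1) = ee (- q al (a (i+1) - a i)) (ww i + c i) / (1 + c i ww i)` for real `al > 0`.  Define `W i : ℂ → ℂ` by the same
recursion with `e (- q z λ) = exp (-2 π i q z λ)`.  For `Im z ≤ 0` by induction: `‖W i z‖ ≤ exp (6 π q Im z) ≤ 1` (`a 0 ≥ 3`, gaps `≥
7`; `‖w + c‖ ≤ ‖1 + c w‖` for `‖w‖ ≤ 1`, `0 ≤ c < 1`), continuous on `Im z ≤ 0` and holomorphic on `Im z < 0`.  `L z = ∑_{i ∈ S}
log (1 + c i W i z)` satisfies `‖log (1 + v)‖ ≤ 2 ‖v‖` (`‖v‖ ≤ 1/2`): `Hol (2 ∑ c i) (6 π q) L`.  HO1 `n` times (the `n`-fold mean of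
the real part is the real part of the `n`-fold mean), `2 / (6 π q h) ≤ 1 / (9 q h)`.  At real points `al > 0` the real part of `L`
is `∑ log ‖1 + c i ww i‖`; the means at `1` only see `[1, ∞)`. -/
def StmtHO2 : Prop := ∀ (q : ℕ) (a c : ℕ → ℝ) (c0 : ℝ), 1 ≤ q → 3 ≤ a 0 →
  (∀ i, a i + 7 ≤ a (i + 1)) → (∀ i, 0 ≤ c i ∧ c i ≤ c0) → c0 ≤ 1 / 10 →
  (∀ i, ContinuousOn (ww q a c i) (Ioi 0)) ∧ (∀ i, ∀ al > 0, ‖ww q a c i al‖ = 1) ∧
  ∀ (h : ℝ) (n : ℕ) (S : Finset ℕ), 0 < h →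
  |(Av h)^[n] (fun al => ∑ i ∈ S, Real.log ‖1 + (c i : ℂ) * ww q a c i al‖) 1| ≤
    2 * (∑ i ∈ S, c i) * (1 / (9 * q * h)) ^ n

/-- the law of `1 + t_1 + .. + t_n`, `t_j` independent and uniform on `[0, h]` -/
noncomputable def nu (h : ℝ) : ℕ → Measure ℝ
  | 0 => Measure.dirac 1
  | n + 1 => Measure.map (fun v : ℝ × ℝ => v.1 + v.2)
      ((nu h n).prod ((ENNReal.ofReal h)⁻¹ • (volume.restrict (Icc (0 : ℝ) h))))

/-- PACKET NU.  Induction on `n`; `integral_map`, `integral_prod` (the function need not be continuous outside of the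
interval: replace it by a continuous function with the same values on the interval, or work with a.e. equality). -/
def StmtNU : Prop := ∀ (h : ℝ) (n : ℕ), 0 < h → IsProbabilityMeasure (nu h n) ∧
  (∀ᵐ α ∂(nu h n), α ∈ Icc (1 : ℝ) (1 + n * h)) ∧
  ∀ f : ℝ → ℝ, ContinuousOn f (Ioi 0) → ∫ α, f α ∂(nu h n) = (Av h)^[n] f 1

/-! ## the box -/

/-- flow box data: `tau` is the time since the centre of the pass, `B` its mass -/
structure Box {K : ℕ} (s : WithTop ℕ∞) (M : Set (E K)) (A : ℝ → E K → E K)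
    (b B tau : E K → ℝ) (p : E K) : Prop where
  bcont : ContinuousOn b M
  b01 : ∀ x ∈ M, 0 ≤ b x ∧ b x ≤ 1
  bp : 0 < b p
  near : ∀ x ∈ M, b x ≠ 0 → 0 < B x ∧ |tau x| ≤ 1 / 10
  Bsm : ContDiffOn ℝ s B M
  tsm : ContDiffOn ℝ s tau (M ∩ {x | 0 < B x})
  eqv : ∀ x ∈ M, ∀ u, 0 < B x → |tau x| ≤ 7 / 2 → |tau x + u| ≤ 7 / 2 →
    B (A u x) = B x ∧ tau (A u x) = tau x + u

/-- PACKET BOX.  The continuous function `(u, x) ↦ ‖A u x - x‖` is positive for `x = p`, `1/20 ≤ |u| ≤ 8` (`A (-u) p = p` iff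
`A u p = p`), so by compactness there is a closed ball `N0` around `p` with `A u x ∉ N0` for all `x ∈ M ∩ N0`, `1/20 ≤ |u| ≤ 8`.  `b` a
smooth bump function of `ℝ^K` (`ContDiffBump`), `b p = 1`, with support in `N0`; `B x = ∫_{-4}^4 b (A s x) ds`, `tau x = - (∫_{-4}^4 s b
(A s x) ds) / B x`.  For `x ∈ M` the set `I` of all `s ∈ [-4, 4]` with `A s x ∈ N0` has diameter `≤ 1/20` (two elements differ by at most
`8`), so if `B x > 0` then `-tau x` is within `1/20` of all elements of `I`.  Equivariance: if `|tau x| ≤ 7/2` and `|tau x + u| ≤ 7/2`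
then every `s ∈ [-4 + u, 4 + u] ∪ [-4, 4]` with `A s x ∈ N0` is within `1/20` of `-tau x` (it differs by less than `8` from an element of `I`),
so it is in the interior of both intervals, and `∫_{-4}^4 b (A (s + u) x) ds = ∫_{-4+u}^{4+u} b (A s x) ds = ∫_{-4}^4 b (A s x) ds`; in the
same way for `s b`.  `near`: `0 ∈ I`, and `b (A s x) > 0` for small `|s|`.  Smoothness of `B` and of the second integral: in a chart `(s, z) ↦ b (A s
(ψ z))` is `C^s`; for finite `s = n` use `Pool.Agent.Helper75.AB.pari_nat` (file Pool/Agent/Helper75/AB/PARI.lean, on main) or packet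
PIN of project CIR; `F = (F ∘ ψ) ∘ φ` on `M` near `x`. -/
def StmtBOX : Prop := ∀ (N K : ℕ) (s : WithTop ℕ∞) (M : Set (E K)) (m : Measure (E K))
  (A : ℝ → E K → E K) (p : E K), 1 ≤ s → s ≤ ∞ → ClosedManifold N K M m → Flow s M A → p ∈ M →
  NoPeriod A 8 p → ∃ b B tau : E K → ℝ, Box s M A b B tau p

/-- the common amplitude -/
noncomputable def cq (q r : ℕ) : ℝ := ((q : ℝ) ^ r)⁻¹

/-- amplitude of the pass: `0` if `B x ≤ b0`, `1` if `B x ≥ 2 b0` -/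
noncomputable def am {K : ℕ} (B : E K → ℝ) (b0 : ℝ) (x : E K) : ℝ :=
  Real.smoothTransition (B x / b0 - 1)

/-- amplitude and phase -/
noncomputable def zz {K : ℕ} (B tau : E K → ℝ) (b0 : ℝ) (q r : ℕ) (al : ℝ) (x : E K) : ℂ :=
  ((cq q r * am B b0 x : ℝ) : ℂ) * ee (q * (al * tau x))

/-- the time shift -/
noncomputable def th {K : ℕ} (Φ : ℂ × ℝ × ℝ → ℝ) (B tau : E K → ℝ) (b0 : ℝ) (q r : ℕ) (al : ℝ)
    (x : E K) : ℝ := Φ (zz B tau b0 q r al x, al * tau x, 1 / q) / (q * al)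

/-- the map `x ↦ A (u x) x` -/
noncomputable def hT {K : ℕ} (A : ℝ → E K → E K) (u : E K → ℝ) (x : E K) : E K := A (u x) x

/-- derivative of `hT A u` along the flow -/
noncomputable def kapT {K : ℕ} (A : ℝ → E K → E K) (u : E K → ℝ) (x : E K) : ℝ :=
  1 + deriv (fun t => u (A t x)) 0

/-- total time shift of `h` -/
noncomputable def uu {K : ℕ} (Φ : ℂ × ℝ × ℝ → ℝ) (B tau : E K → ℝ) (b0 : ℝ) (q r : ℕ) (al : ℝ)
    (x : E K) : ℝ := 1 / al - 1 + th Φ B tau b0 q r al x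

/-- total time shift of the inverse of `h` -/
noncomputable def ui {K : ℕ} (A : ℝ → E K → E K) (Φ' : ℂ × ℝ × ℝ → ℝ) (B tau : E K → ℝ) (b0 : ℝ)
    (q r : ℕ) (al : ℝ) (x : E K) : ℝ := 1 - 1 / al + th Φ' B tau b0 q r al (A 1 x)

/-- the perturbed map -/
noncomputable def gT {K : ℕ} (A : ℝ → E K → E K) (Φ : ℂ × ℝ × ℝ → ℝ) (B tau : E K → ℝ) (b0 : ℝ)
    (q r : ℕ) (al : ℝ) : E K → E K := A 1 ∘ hT A (uu Φ B tau b0 q r al)

/-- PACKET SMO (smoothness, jointly in `al`).  At `(al, x)`: if `B x > 0` then `tau` is `C^s` within `M` at `x` (the set `M ∩ {0 < B}` is a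
neighbourhood of `x` within `M`) and `th` is a composition of `C^s` functions, `‖zz‖ ≤ cq < z0`.  If `B x ≤ 0` then `B < b0` on `M` near `x`,
`am = 0`, `zz = 0`, `th = 0` there. -/
def StmtSMO : Prop := ∀ (K : ℕ) (s : WithTop ℕ∞) (M : Set (E K)) (A : ℝ → E K → E K)
  (b B tau : E K → ℝ) (p : E K) (b0 z0 : ℝ) (Φ : ℂ × ℝ × ℝ → ℝ) (q r : ℕ), s ≤ ∞ →
  Box s M A b B tau p → 0 < b0 → PF z0 Φ → 1 ≤ q → cq q r < z0 →
  ContDiffOn ℝ s (fun v : ℝ × E K => th Φ B tau b0 q r v.1 v.2) (Ioi 0 ×ˢ M)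

/-- PACKET SMC (`th` is small in `C^r`).  Fix `i`, `c = c i`, `L = L i` compact in `c.V`.  For `z ∈ L` with `B (ψ z) < b0` the function `th`
vanishes near `z`.  The set `L' = {z ∈ L | b0 ≤ B (ψ z)}` is compact, contained in the open set `V' = {z ∈ V | 0 < B (ψ z)}` on which
`B ∘ ψ`, `tau ∘ ψ`, `am ∘ ψ` are `C^r`: their derivatives of order `≤ r` are bounded on `L'` by some `D ≥ 1`.  `‖D^k ee (q al
tau)‖ ≤ C q^k` (`norm_iteratedFDerivWithin_comp_le` within the open set `V'`; derivatives of `t ↦ ee (q al t)` are bounded by `(4 π q)^k`), so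
`‖D^k zz‖ ≤ C q^(-r) q^k ≤ C` for `k ≤ r` (Leibniz `norm_iteratedFDerivWithin_mul_le`).  `‖zz‖ ≤ cq ≤ z0/2` for large `q`, and all derivatives of `Φ`
of order `≤ r` are bounded on the compact set `‖z‖ ≤ z0/2`, `|u| ≤ U`, `0 ≤ e ≤ 1`.  So `‖D^k (Φ ∘ (zz, al tau, 1/q))‖ ≤ C'` with
`C'` independent of `q`, `al`; divide by `q al ≥ q`. -/
def StmtSMC : Prop := ∀ (N K r : ℕ) (s : WithTop ℕ∞) (M : Set (E K)) (A : ℝ → E K → E K)
  (b B tau : E K → ℝ) (p : E K) (b0 z0 : ℝ) (Φ : ℂ × ℝ × ℝ → ℝ), 1 ≤ r → (r : WithTop ℕ∞) ≤ s →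
  s ≤ ∞ → Box s M A b B tau p → 0 < b0 → PF z0 Φ →
  ∀ (ι : Type) [Finite ι] (c : ι → Chart N K M) (L : ι → Set (E N)),
  (∀ i, IsCompact (L i) ∧ L i ⊆ (c i).V) → ∀ ε > 0, ∃ q0 : ℕ, ∀ q : ℕ, q0 ≤ q →
  ∀ al : ℝ, 1 ≤ al → al ≤ 2 → ∀ i, ∀ k ≤ r, ∀ z ∈ L i,
    ‖iteratedFDeriv ℝ k (fun z => th Φ B tau b0 q r al ((c i).ψ z)) z‖ ≤ ε

/-- PACKET CLC (`C^r` closeness of `x ↦ A (1 + u x) x`).  In the chart: `F (t, z) = A t (ψ z)` is `C^r` on `univ ×ˢ V`, compare `F ∘ (1 + u ∘ ψ,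
id)` and `F ∘ (1, id)`.  Faà di Bruno: Mathlib `HasFTaylorSeriesUpToOn.comp`, `iteratedFDeriv` of a composition is `taylorComp`, and
`FormalMultilinearSeries.taylorComp_sub_taylorComp_isLittleO` (file Analysis/Calculus/ContDiff/FaaDiBruno) or the explicit estimate
`OrderedFinpartition.norm_compAlongOrderedFinpartition_sub_compAlongOrderedFinpartition_le`; the derivatives of `F` of order `≤ r` are uniformly
continuous on the compact set `[0, 2] × L i`.  (Argue by contradiction with a sequence `u_n`, `δ = 1/n`, filter `atTop ×ˢ 𝓟 L`, if this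
is easier.) -/
def StmtCLC : Prop := ∀ (N K r : ℕ) (s : WithTop ℕ∞) (M : Set (E K)) (A : ℝ → E K → E K),
  (r : WithTop ℕ∞) ≤ s → Flow s M A →
  ∀ (ι : Type) [Finite ι] (c : ι → Chart N K M) (L : ι → Set (E N)),
  (∀ i, IsCompact (L i) ∧ L i ⊆ (c i).V) → ∀ ε > 0, ∃ δ > 0, ∀ u : E K → ℝ, ContDiffOn ℝ r u M →
  (∀ i, ∀ k ≤ r, ∀ z ∈ L i, ‖iteratedFDeriv ℝ k (fun z => u ((c i).ψ z)) z‖ ≤ δ) →
  CrClose r ε c L (A 1) (fun x => A (1 + u x) x)

/-- PACKET SM1 (`th` is small in `C^1` on `M`; from SMC, SMO, T1 of project RZ = Pool.Agent.Helper57.RZ.T1).  Cover the compact set `M` by finitely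
many `ψ_i '' (L i)`, `L i` compact.  At `x = ψ z`: `fderiv (th ∘ ψ) z = fderivWithin th M x ∘ fderiv ψ z` (chain rule, `ψ` maps `V`
into `M`), and `Pi M x = fderiv ψ z ∘ fderiv φ x ∘ Pi M x` (T1), so `fderivWithin th M x ∘ Pi M x = fderiv (th ∘ ψ) z ∘ fderiv φ x ∘ Pi M x`; the
norm of `fderiv φ (ψ z)` is bounded on `L i`.  SMC with `r` (`k ≤ 1`). -/
def StmtSM1 : Prop := ∀ (N K r : ℕ) (s : WithTop ℕ∞) (M : Set (E K)) (m : Measure (E K))
  (A : ℝ → E K → E K) (b B tau : E K → ℝ) (p : E K) (b0 z0 : ℝ) (Φ : ℂ × ℝ × ℝ → ℝ), 1 ≤ r →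
  (r : WithTop ℕ∞) ≤ s → s ≤ ∞ → ClosedManifold N K M m → Box s M A b B tau p → 0 < b0 → PF z0 Φ →
  ∀ δ > 0, ∃ q0 : ℕ, ∀ q : ℕ, q0 ≤ q → ∀ al : ℝ, 1 ≤ al → al ≤ 2 → ∀ x ∈ M,
    |th Φ B tau b0 q r al x| ≤ δ ∧
    ‖(fderivWithin ℝ (th Φ B tau b0 q r al) M x) ∘L (Pi M x)‖ ≤ δ

/-- PACKET GC1 (`C^1` closeness of `hT A u`; with T1 - T3 of project RZ).  `(t, x) ↦ A t x` is `C^1` within `univ ×ˢ M`; let `D (t, x)` be a
derivative within this set, continuous (as in T3; only its restriction to tangent vectors matters).  `hT A u = A ∘ (u, id)` has at `x ∈ M` the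
derivative `v ↦ D (u x, x) (u' v, v)`, `u' = fderivWithin u M x`, so `der M (hT A u) x - Pi M x = (der M (A (u x)) x - der M (A 0) x) + D (u x, x)
(1, 0) ⊗ (u' ∘ Pi M x)`; `D (t, x) (1, 0) = gen A (A t x)` is bounded, `(t, x) ↦ der M (A t) x` is continuous on `[-1, 1] × M` (packet JCD of CIR,
available as a hypothesis), hence uniformly continuous, `der M (A 0) x = Pi M x`. -/
def StmtGC1 : Prop := ∀ (N K : ℕ) (s : WithTop ℕ∞) (M : Set (E K)) (m : Measure (E K))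
  (A : ℝ → E K → E K), 1 ≤ s → s ≤ ∞ → ClosedManifold N K M m → Flow s M A → ∀ δ > 0, ∃ δ' > 0,
  ∀ u : E K → ℝ, ContDiffOn ℝ 1 u M →
  (∀ x ∈ M, |u x| ≤ δ' ∧ ‖(fderivWithin ℝ u M x) ∘L (Pi M x)‖ ≤ δ') →
  ∀ x ∈ M, ‖hT A u x - x‖ ≤ δ ∧ ‖der M (hT A u) x - Pi M x‖ ≤ δ

/-- PACKET HCL (`h` and its inverse are `C^1` close to the identity; from SM1, GC1, SMO, GDR, T2 of project RZ).  Let `δ'` be from GC1.  `|uu| ≤ (1 - 1/al) +
|th Φ|`, `fderivWithin uu = fderivWithin th`.  For `ui`: `ui = 1 - 1/al + th Φ' ∘ A 1`, `fderivWithin (ui) M x ∘ Pi M x = fderivWithin (th Φ') M (A 1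
x) ∘ Pi M (A 1 x) ∘ der M (A 1) x` (chain rule within `M`, T2: `Pi M (A 1 x) * der M (A 1) x = der M (A 1) x`), and `‖der M (A 1) x‖` is bounded on `M` (T3 of RZ).
`kapT`: `deriv (fun t => uu (A t x)) 0 = fderivWithin uu M x (gen A x)`, `gen A x` is a tangent vector (`Pi M x (gen A x) = gen A x`, XF of CIR) and
bounded on `M`. -/
def StmtHCL : Prop := ∀ (N K r : ℕ) (s : WithTop ℕ∞) (M : Set (E K)) (m : Measure (E K))
  (A : ℝ → E K → E K) (b B tau : E K → ℝ) (p : E K) (b0 z0 : ℝ) (Φ Φ' : ℂ × ℝ × ℝ → ℝ), 1 ≤ r →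
  (r : WithTop ℕ∞) ≤ s → s ≤ ∞ → ClosedManifold N K M m → Flow s M A → Box s M A b B tau p →
  0 < b0 → PF z0 Φ → PF z0 Φ' → ∀ δ > 0, ∃ al0 > 1, al0 ≤ 11 / 10 ∧ ∃ q0 : ℕ, ∀ q : ℕ, q0 ≤ q →
  ∀ al : ℝ, 1 ≤ al → al ≤ al0 → ∀ x ∈ M,
    ‖hT A (uu Φ B tau b0 q r al) x - x‖ ≤ δ ∧
    ‖der M (hT A (uu Φ B tau b0 q r al)) x - Pi M x‖ ≤ δ ∧
    ‖der M (hT A (ui A Φ' B tau b0 q r al)) x - Pi M x‖ ≤ δ ∧
    1 / 2 ≤ kapT A (uu Φ B tau b0 q r al) x

/-- PACKET DFF (`h` is a diffeomorphism; from PSI, SMO).  Smoothness: SMO for `Φ` and `Φ'` and composition.  It remains to show `th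
Φ' (g x) = - th Φ x` for `g x = A (1/al + th Φ x) x`, and `th Φ (g' y) = - th Φ' y` for `g' y = A (-1/al + th Φ' y) y` (both for all points of
`M`): then `h' (h x) = A (uu x + ui (h x)) x = x` and the same for `h (h' x)`, `y = A 1 x`.  First identity: if `0 < B x`, `|tau x| ≤ 5/2`
let `v = al (tau x) = Psi q c ξ` (surjective), `c = cq am x`; `th Φ x = Φ (c ee (q v), v, 1/q) / (q al)`, `g x` has the same `B`, hence the same `c`, and `tau (g
x) = tau x + 1/al + th = Psi q c (ξ + 1) / al` (`|tau (g x)| ≤ 7/2`: for `v ≥ 11/10` one has `ξ ≥ 1`, `Psi (ξ + 1) = Psi ξ + 1`, so `th Φ x = 0`; otherwise `|Psi u - u| ≤ 1/10`); `step'` at `ξ + 1` gives the claim.  Otherwise `th Φ x = 0`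
(`PF.off`, or `am = 0`) and `g x = A (1/al) x`; if `th Φ' (g x) ≠ 0` then `0 < B (g x)`, `-1 < al tau (g x) < 5/2`, so by `eqv` `tau x = tau (g x) -
1/al`, `B x = B (g x)`, `|tau x| ≤ 5/2`: apply the first case to get `th Φ' (g x) = - th Φ x = 0`.  The second identity in the same way (if `0 < B
y`, `|tau y| ≤ 5/2`, use `step` at `ξ - 1`). -/
def StmtDFF : Prop := ∀ (K : ℕ) (s : WithTop ℕ∞) (M : Set (E K)) (A : ℝ → E K → E K)
  (b B tau : E K → ℝ) (p : E K) (b0 z0 : ℝ) (Φ Φ' : ℂ × ℝ × ℝ → ℝ) (q r : ℕ) (al : ℝ), s ≤ ∞ →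
  Flow s M A → Box s M A b B tau p → 0 < b0 → Pair z0 Φ Φ' → 1 ≤ q → cq q r < z0 → 1 ≤ al →
  al ≤ 11 / 10 →
  IsDiffeo s M (hT A (uu Φ B tau b0 q r al)) (hT A (ui A Φ' B tau b0 q r al))

/-- PACKET GDR (derivative along the flow; from XF of project CIR).  `u` is differentiable within `M`, the curve `t ↦ A t x` has the
derivative `gen A x`, so `t ↦ u (A t x)` has a derivative at `0`.  `hT A u (A t x) = A (t + u (A t x)) x`: XF (third part) with `y = x`,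
`u t = t + u (A t x)`.  For the iterates: `der M (A 1) x (gen A x) = gen A (A 1 x)` (XF), chain rule (T2 of project RZ), induction on `n`.  If
`gen A x = 0` then the curve `A t x` has derivative `gen A (A t x) = der M (A t) x (gen A x) = 0` (XF for the map `A t`), so it is constant. -/
def StmtGDR : Prop := ∀ (K : ℕ) (s : WithTop ℕ∞) (M : Set (E K)) (A : ℝ → E K → E K)
  (u : E K → ℝ), 1 ≤ s → s ≤ ∞ → Flow s M A → ContDiffOn ℝ 1 u M → ∀ x ∈ M,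
  DifferentiableAt ℝ (fun t => u (A t x)) 0 ∧
  der M (hT A u) x (gen A x) = kapT A u x • gen A (hT A u x) ∧
  (gen A x = 0 → (∀ t, A t x = x) ∧ kapT A u x = 1) ∧
  ∀ n : ℕ, der M ((A 1 ∘ hT A u)^[n]) x (gen A x) =
    (∏ k ∈ Finset.range n, kapT A u ((A 1 ∘ hT A u)^[k] x)) • gen A ((A 1 ∘ hT A u)^[n] x)

/-- PACKET JK (joint continuity of `kapT`; from SMO).  `G (al, t, x) = uu al (A t x)` is `C^1` within `Ioi 0 ×ˢ univ ×ˢ M` (SMO, `Flow`), its derivative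
in the direction `(0, 1, 0)` at `t = 0` is `deriv (fun t => uu al (A t x)) 0` and is continuous in `(al, x)` (first order term of a Taylor series within the
set at a point, as in T3 of project RZ).  `gT` is jointly continuous because `(t, x) ↦ A t x` and `uu` are; the iterates by induction. -/
def StmtJK : Prop := ∀ (K : ℕ) (s : WithTop ℕ∞) (M : Set (E K)) (A : ℝ → E K → E K)
  (b B tau : E K → ℝ) (p : E K) (b0 z0 : ℝ) (Φ : ℂ × ℝ × ℝ → ℝ) (q r : ℕ), 1 ≤ s → s ≤ ∞ →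
  Flow s M A → Box s M A b B tau p → 0 < b0 → PF z0 Φ → 1 ≤ q → cq q r < z0 →
  ContinuousOn (fun v : ℝ × E K => kapT A (uu Φ B tau b0 q r v.1) v.2) (Ioi 0 ×ˢ M) ∧
  ∀ n : ℕ, ContinuousOn (fun v : ℝ × E K => (gT A Φ B tau b0 q r v.1)^[n] v.2) (Ioi 0 ×ˢ M)

/-- `a` is the time of a centre on the line of `x` -/
def Centre {K : ℕ} (A : ℝ → E K → E K) (B tau : E K → ℝ) (x : E K) (a : ℝ) : Prop :=
  0 < B (A a x) ∧ tau (A a x) = 0

/-- the centres of the line of `x` after time `-5/2` -/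
structure Centres {K : ℕ} (A : ℝ → E K → E K) (B tau : E K → ℝ) (x : E K) (a : ℕ → ℝ) : Prop where
  a0 : 3 ≤ a 0
  gap : ∀ i, a i + 7 ≤ a (i + 1)
  cen : ∀ i, Centre A B tau x (a i)
  all : ∀ t, -(5 / 2) < t → Centre A B tau x t → ∃ i, a i = t

/-- PACKET ENU (enumeration).  Two different centres differ by more than `7`: by `eqv` from the centre `a` one has `tau (A (a + u) x) = u`,
`0 < B`, for `|u| ≤ 7/2`; if `0 < a' - a ≤ 7` put `u = (a' - a)/2` and compare the two values of `tau` at `a + u`.  By assumption `-tau x` is a centre in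
`[-17/5, -5/2)`, so the other centres `> -5/2` are `> -17/5 + 7 ≥ 3`.  The set of centres `> -5/2` is unbounded and its points have
distances `> 7`, so every nonempty part has a least element; enumerate recursively. -/
def StmtENU : Prop := ∀ (K : ℕ) (s : WithTop ℕ∞) (M : Set (E K)) (A : ℝ → E K → E K)
  (b B tau : E K → ℝ) (p x : E K), Flow s M A → Box s M A b B tau p → x ∈ M → 0 < B x →
  5 / 2 < tau x → tau x ≤ 17 / 5 → (∀ C : ℝ, ∃ t, C < t ∧ Centre A B tau x t) →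
  ∃ a : ℕ → ℝ, Centres A B tau x a

/-- PACKET LIN (the line of a point; from ENU or its proof: two different centres differ by more than `7`).  `near`: `A s x = A (s - a i) (A (a i) x)` and
`eqv` with `tau (A (a i) x) = 0`.  `far` with `e0 = tau x - 5/2`: if `th Φ (A s x) ≠ 0` then `am ≠ 0`, so `B (A s x) > 0`, and `-1 < al tau < 5/2` (`PF.off`, `zz`
has norm `≤ cq < z0`), so `t = s - tau (A s x)` is a centre (`eqv`) with `t > s - 5/2 > -tau x`, and `-tau x` is a centre, so `t > -tau x + 7 > 3`; hence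
`t` is some `a i` and `|s - a i| < 5/2`, a contradiction.  Orbit: `gT x = A (1/al + th x) x`, induction: `g^[k] x = A (S k) x`; `kapT A uu (A
(S k) x) = 1 + deriv (fun t => th (A t (A (S k) x))) 0 = 1 + deriv d (S k)`. -/
def StmtLIN : Prop := ∀ (K : ℕ) (s : WithTop ℕ∞) (M : Set (E K)) (A : ℝ → E K → E K)
  (b B tau : E K → ℝ) (p : E K) (b0 z0 : ℝ) (Φ : ℂ × ℝ × ℝ → ℝ) (q r : ℕ) (al : ℝ) (x : E K)
  (a : ℕ → ℝ), s ≤ ∞ → Flow s M A → Box s M A b B tau p → 0 < b0 → PF z0 Φ → 1 ≤ q →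
  cq q r < z0 → 1 ≤ al → al ≤ 11 / 10 → x ∈ M → 0 < B x → 5 / 2 < tau x → tau x ≤ 17 / 5 →
  Centres A B tau x a →
  Line Φ q al (cq q r) a (fun i => cq q r * am B b0 (A (a i) x))
    (fun t => th Φ B tau b0 q r al (A t x)) ∧
  ∀ S : ℕ → ℝ, S 0 = 0 → (∀ k, S (k + 1) = S k + 1 / al + th Φ B tau b0 q r al (A (S k) x)) →
  ∀ k, (gT A Φ B tau b0 q r al)^[k] x = A (S k) x ∧
    kapT A (uu Φ B tau b0 q r al) ((gT A Φ B tau b0 q r al)^[k] x) =
      1 + deriv (fun t => th Φ B tau b0 q r al (A t x)) (S k)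

/-- PACKET BIR (many passes).  `b2 x = b x * am B b0 x ^ 2` is continuous on `M`, `≥ 0`, `≤ 1`, and `b2 p = b p > 0` (`am p = 1` as `B p ≥ 2
b0`); `μ` is a probability measure on `M` and `p` is in its support: `β = ∫ b2 dμ > 0`, and `(1/n) ∑_{k<n} b2 (A 1^[k] x) → β` for `x` in the
basin, `A 1^[k] x = A k x`.  First part: `b2 (A k x) ≠ 0` for infinitely many `k`, and then `k - tau (A k x)` is a centre (`near`, `eqv`).
Second part: `b2 (A k x) ≤ am (A (a i) x)^2` for the centre `a i = k - tau (A k x) ∈ [k - 1/10, k + 1/10]`; different `k` give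
different `i`, `a i < n` for `k < n`, and `i < n` as `a i ≥ 3 + 7 i`. -/
def StmtBIR : Prop := ∀ (K : ℕ) (s : WithTop ℕ∞) (M : Set (E K)) (A : ℝ → E K → E K)
  (b B tau : E K → ℝ) (p : E K) (b0 : ℝ) (μ : Measure (E K)), IsCompact M → Flow s M A →
  Box s M A b B tau p → 0 < b0 → 2 * b0 ≤ B p → IsProbabilityMeasure μ → μ Mᶜ = 0 → p ∈ M →
  InSupport μ p → ∃ β > 0, β ≤ 1 ∧ ∀ x ∈ M, InBasin M (A 1) μ x →
  (∀ C : ℝ, ∃ t, C < t ∧ Centre A B tau x t) ∧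
  ∀ a : ℕ → ℝ, Centres A B tau x a → ∀ᶠ n : ℕ in atTop,
    β * n ≤ ∑ i ∈ (Finset.range n).filter (fun i => a i < n), am B b0 (A (a i) x) ^ 2

/-- normalised logarithm of the derivative along the flow at the time `⌊al n⌋` -/
noncomputable def vv {K : ℕ} (A : ℝ → E K → E K) (Φ : ℂ × ℝ × ℝ → ℝ) (B tau : E K → ℝ) (b0 : ℝ)
    (q r : ℕ) (n : ℕ) (al : ℝ) (x : E K) : ℝ :=
  (∑ k ∈ Finset.range ⌊al * n⌋₊,
    Real.log (kapT A (uu Φ B tau b0 q r al) ((gT A Φ B tau b0 q r al)^[k] x))) / n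

/-- PACKET AVG (the mean over `al` is negative; from CLK, HO2, NU, LIN, ENU, BIR, JK).  Take `β` from BIR.  Let `x` be as in the statement, `a` from
ENU, `c i = cq am (A (a i) x)`, `S = {i < n | a i < n}`.  By LIN and CLK (`C cq ≤ 1/2` for large `q`) `n vv n al x ≤ Lam q a c al S + C cq (1 + n cq / q)` for
`al ∈ [1, 11/10]`.  `Lam = ∑ log (1 - c i²) - 2 ∑ log ‖1 + c i ww i‖`, `log (1 - c²) ≤ -c²`.  Integrate over `nu h (r+1)` (supported in
`[1, 1 + (r+1) h]`; NU and HO2): the mean of `n vv` is at most `- ∑ c i² + 4 (∑ c i) (9 q h)^(-(r+1)) + C cq (1 + n cq/q)`, and `∑_{i ∈ S} c i ≤ n cq`,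
`∑ c i² ≥ β n cq²` eventually, `(9 q h)^(-(r+1)) = cq / q * (9 h)^(-(r+1))`.  So for `q ≥ q0 (h, r, β)` it is at most `- (β/2) cq² n + C cq ≤ -(β/4) cq² n`
for large `n`.  Integrability of `al ↦ vv n al x` on `[1, 1 + (r+1) h]`: measurable (finite sum over the value of the floor of
continuous functions, JK) and bounded. -/
def StmtAVG : Prop := ∀ (N K r : ℕ) (s : WithTop ℕ∞) (M : Set (E K)) (m μ : Measure (E K))
  (A : ℝ → E K → E K) (b B tau : E K → ℝ) (p : E K) (b0 z0 : ℝ) (Φ Φ' : ℂ × ℝ × ℝ → ℝ) (h : ℝ),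
  1 ≤ r → (r : WithTop ℕ∞) ≤ s → s ≤ ∞ → ClosedManifold N K M m → Flow s M A →
  Box s M A b B tau p → 0 < b0 → 2 * b0 ≤ B p → Pair z0 Φ Φ' → FullBasin M m (A 1) μ → p ∈ M →
  InSupport μ p → 0 < h → (r + 1) * h ≤ 1 / 10 → ∃ (β : ℝ) (q0 : ℕ), 0 < β ∧ ∀ q : ℕ, q0 ≤ q →
  ∀ᵐ x ∂m, 0 < B x → 5 / 2 < tau x → tau x ≤ 17 / 5 → ∀ᶠ n : ℕ in atTop,
    ∫ al, vv A Φ B tau b0 q r n al x ∂(nu h (r + 1)) ≤ -(β * cq q r ^ 2)

/-- PACKET POS (nonempty relatively open sets have positive measure; `LebesgueChart`). -/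
def StmtPOS : Prop := ∀ (N K : ℕ) (M : Set (E K)) (m : Measure (E K)) (U : Set (E K)),
  ClosedManifold N K M m → IsOpen U → (M ∩ U).Nonempty → 0 < m (M ∩ U)

/-- PACKET AB2 (measure theory).  For `al` in `I = Icc a1 a2` the functions `v n al x ∈ [-C, C]` satisfy `liminf ≥ 0` for a.e. `x`.  So `min (v n al x) 0 → 0`
for a.e. `x ∈ S` and every `al ∈ I`, hence (dominated convergence in `x`, then in `al`) `∫∫_S min (v n al x) 0 → 0`.  On the
other hand `limsup_n ∫_S (∫ v n al x dν) dm ≤ -η m(S)` (reverse Fatou: `x ↦ ∫ v n al x dν` is bounded by `C` and eventually `≤ -η` for a.e. `x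
∈ S`; dominated convergence for `max (∫ v n dν) (-η) → -η`).  `S` may be replaced by a measurable set; Fubini for the
product of `ν` and `m.restrict S`. -/
def StmtAB2 : Prop := ∀ (α : Type) [MeasurableSpace α] (m : Measure α) [IsFiniteMeasure m]
  (ν : Measure ℝ) [IsProbabilityMeasure ν] (a1 a2 C η : ℝ) (S : Set α) (v : ℕ → ℝ → α → ℝ),
  (∀ᵐ al ∂ν, al ∈ Icc a1 a2) → MeasurableSet S → 0 < m S → 0 < η →
  (∀ n, AEStronglyMeasurable (fun w : ℝ × α => v n w.1 w.2) (ν.prod m)) →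
  (∀ n, ∀ al ∈ Icc a1 a2, ∀ᵐ x ∂m, |v n al x| ≤ C) →
  (∀ᵐ x ∂m, x ∈ S → ∀ᶠ n in atTop, ∫ al, v n al x ∂ν ≤ -η) →
  ∃ al ∈ Icc a1 a2, ¬ ∀ᵐ x ∂m, ∀ lam < (0 : ℝ), ∀ᶠ n in atTop, lam ≤ v n al x

/-- PACKET MEB (some `al` is good; from AVG, AB2, POS, JK, NU).  `ν = nu h (r+1)`, `I = [1, 1 + (r+1) h]`, `v n al x = vv .. n al x`, `S` = the set of all `x
∈ M` with `0 < B x`, `5/2 < tau x < 17/5`: it is relatively open in `M`, contains `A 3 p` (`eqv`; `|tau p| ≤ 1/10`, so choose the shift `u = 3 - tau p`), so `m S > 0`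
(POS).  Bound `C`: `kapT` is continuous and positive on the compact set `I × M` (positive: hypothesis).  Measurability: `vv` is on the set of
all `al` with `⌊al n⌋₊ = k` a continuous function on `(I) × M` (JK), finitely many `k`; `m Mᶜ = 0`.  AB2 gives `al` such that not a.e. `liminf vv n al x
≥ 0`.  If for a.e. `x` and all `lam < 0` eventually `lam ≤ (1/n) ∑_{k<n} log kapT`, then with `k = ⌊al n⌋₊ ≤ 2 n`, `vv n = (k/n) (1/k) ∑_{k} ≥ 2
lam` eventually. -/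
def StmtMEB : Prop := ∀ (N K r : ℕ) (s : WithTop ℕ∞) (M : Set (E K)) (m μ : Measure (E K))
  (A : ℝ → E K → E K) (b B tau : E K → ℝ) (p : E K) (b0 z0 : ℝ) (Φ Φ' : ℂ × ℝ × ℝ → ℝ) (h : ℝ),
  1 ≤ r → (r : WithTop ℕ∞) ≤ s → s ≤ ∞ → ClosedManifold N K M m → Flow s M A →
  Box s M A b B tau p → 0 < b0 → 2 * b0 ≤ B p → Pair z0 Φ Φ' → FullBasin M m (A 1) μ → p ∈ M →
  InSupport μ p → 0 < h → (r + 1) * h ≤ 1 / 10 → ∃ q0 : ℕ, ∀ q : ℕ, q0 ≤ q →
  (∀ al ∈ Icc (1 : ℝ) (1 + (r + 1) * h), ∀ x ∈ M, 0 < kapT A (uu Φ B tau b0 q r al) x) →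
  ∃ al ∈ Icc (1 : ℝ) (1 + (r + 1) * h), ¬ ∀ᵐ x ∂m, ∀ lam < (0 : ℝ), ∀ᶠ n : ℕ in atTop,
    lam ≤ (∑ k ∈ Finset.range n,
      Real.log (kapT A (uu Φ B tau b0 q r al) ((gT A Φ B tau b0 q r al)^[k] x))) / n

/-- PACKET NEB (conclusion; from GDR, XF of CIR).  `kp = kapT A u`, `D n x = ∏_{k<n} kp (g^[k] x) > 0`, `l n x = (1/n) log D n x`.  `X = gen A` is bounded on the compact
set `M`, central for `g` (hypothesis), `der M (g^[n]) x (X x) = D n x • X (g^[n] x)` (GDR).  If `X x = 0` then `A t x = x` for all `t`, `g^[k] x = x`, `kp =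
1`, `l n x = 0`.  If `X x ≠ 0` then `X (g^[n] x) ≠ 0` (if `X y = 0` for `y = g z` then `A t y = y` for all `t`; but `y = A t z` for some `t`, so `z = y`, `X z
= 0`), `log ‖der (X x)‖ / n ≤ l n x + (log C)/n`.  First part: if a.e. `x` is not `LowNeg`, then for a.e. `x` and all `lam < 0`
eventually `lam ≤ l n x`, against the hypothesis.  Second part: `FullBasin μ`, `φ = log kp` is continuous on `M`, so `l n x → lam0 = ∫ φ dμ` for a.e.
`x`; `lam0 < 0`, otherwise the hypothesis fails; `lam = lam0/2`; points with `X x = 0` have `l n x = 0`, so a.e. `X x ≠ 0`. -/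
def StmtNEB : Prop := ∀ (K : ℕ) (s : WithTop ℕ∞) (M : Set (E K)) (m : Measure (E K))
  (A : ℝ → E K → E K) (u : E K → ℝ) (Q : Fin 3 → E K → End K), 1 ≤ s → s ≤ ∞ → IsCompact M →
  m Mᶜ = 0 → Flow s M A → ContDiffOn ℝ 1 u M → MapsTo (hT A u) M M →
  ContinuousOn (kapT A u) M → (∀ x ∈ M, 0 < kapT A u x) →
  (∀ x ∈ M, Q 1 x (gen A x) = gen A x) →
  (¬ ∀ᵐ x ∂m, ∀ lam < (0 : ℝ), ∀ᶠ n : ℕ in atTop,
    lam ≤ (∑ k ∈ Finset.range n, Real.log (kapT A u ((A 1 ∘ hT A u)^[k] x))) / n) →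
  Negative M m (A 1 ∘ hT A u) Q

end Pool.Agent.Helper56.TOF
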