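import Pool.Agent.Helper56.TOF.Goals

/-!
# Project TOF (MP_f32c9c_an): the packets, second part

Part NOP: the support of a measure with a basin of full volume contains a point which is not on a short closed orbit.
Otherwise most orbit segments of length `J` stay together in at most `e^{κ J}` groups, `κ` as small as we like, and a group has volume at most
`C θ^J` because of the expansion of the unstable directions.
-/

set_option autoImplicit false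

open Set Filter Topology MeasureTheory

open scoped ContDiff

namespace Pool.Agent.Helper56.TOF

open Pool.Agent.Helper56.RZ Pool.Agent.Helper30.CIR

/-- the main theorem without assumptions on the support of `μ` -/
def StmtTOF1 : Prop := ∀ (N K r : ℕ) (s : WithTop ℕ∞) (M : Set (E K)) (m μ : Measure (E K))
  (A : ℝ → E K → E K) (P : Fin 3 → E K → End K), 1 ≤ r → (r : WithTop ℕ∞) ≤ s → s ≤ ∞ →
  ClosedManifold N K M m → Flow s M A → PartHyp M (A 1) (A (-1)) P → FullBasin M m (A 1) μ →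
  Destroyed (N := N) r s M m (A 1) P

/-- the orbits of the points of `S` stay `ε`-close to each other up to time `J` -/
def Tog {K : ℕ} (F : E K → E K) (ε : ℝ) (J : ℕ) (S : Set (E K)) : Prop :=
  ∀ x ∈ S, ∀ y ∈ S, ∀ k ≤ J, ‖F^[k] y - F^[k] x‖ ≤ ε

/-- PACKET UDF (uniform differentiability; with T1, T2 of project RZ).  Cover `M` by finitely many charts so that (Lebesgue number) `x, y ∈ M` with
`‖y - x‖ ≤ δ` are in one of the compact sets `ψ '' B`, `B` a closed ball, `x = ψ z`, `y = ψ z'`.  `F ∘ ψ` and `ψ` are `C^1` on a neighbourhood of the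
convex compact set `B`: `‖F y - F x - D(F ∘ ψ)(z) (z' - z)‖ ≤ ε' ‖z' - z‖`, `‖y - x - Dψ(z) (z' - z)‖ ≤ ε' ‖z' - z‖` for `‖z' - z‖` small (mean value
inequality, uniform continuity of the derivatives), `D(F ∘ ψ)(z) = der M F x ∘ Dψ(z)` (chain rule within `M`, `Pi M x ∘ Dψ(z) = Dψ(z)`, T1) and `‖z' - z‖ ≤ C ‖y - x‖`
(`φ` is Lipschitz near `x`).  (Or by contradiction with sequences `x_n, y_n → x0` and strict differentiability at one point.) -/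
def StmtUDF : Prop := ∀ (N K : ℕ) (M : Set (E K)) (m : Measure (E K)) (F : E K → E K),
  ClosedManifold N K M m → ContDiffOn ℝ 1 F M → ∀ ε > 0, ∃ δ > 0, ∀ x ∈ M, ∀ y ∈ M,
  ‖y - x‖ ≤ δ → ‖F y - F x - der M F x (y - x)‖ ≤ ε * ‖y - x‖

/-- PACKET HYP (uniform constants; compactness; T2, T3 of project RZ).  Take `n` from `ineq`, `G = der M (f^[n]) x`.  `P 2 x w = w`: `G w` is in the range of
`P 2 (f^[n] x)` and `der M (f'^[n]) (f^[n] x) (G w) = w` (chain rule), so `‖w‖ < ‖G w‖` for `w ≠ 0` (`Contracts`).  For unit vectors `v` in the range of `P 0`, `w`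
in the range of `P 2`, and a unit vector `c` in the range of `P 1` (`P 1 x ≠ 0`): `‖G v‖ < ‖G c‖ < ‖G w‖`; for `v` in the range of `P 1`: `‖G v‖ < ‖G w‖`.  The sets
of all `(x, w)` and `(x, v, w)` (unit vectors) are compact, the functions `‖w‖ / ‖G w‖`, `‖G v‖ / ‖G w‖` continuous and `< 1`; homogeneity.  (See also the proof
of CE1, Pool/Agent/Helper77/CIR/CE1.lean.) -/
def StmtHYP : Prop := ∀ (K : ℕ) (M : Set (E K)) (f f' : E K → E K) (P : Fin 3 → E K → End K),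
  IsCompact M → IsDiffeo 1 M f f' → PartHyp M f f' P → ∃ n : ℕ, 1 ≤ n ∧ ∃ θ : ℝ, 0 < θ ∧ θ < 1 ∧
  ∀ x ∈ M, ∀ w, P 2 x w = w → ‖w‖ ≤ θ * ‖der M (f^[n]) x w‖ ∧
    ∀ v, ∀ i : Fin 3, i ≠ 2 → P i x v = v →
      ‖der M (f^[n]) x v‖ * ‖w‖ ≤ θ * (‖v‖ * ‖der M (f^[n]) x w‖)

/-- PACKET CON (expansion of differences in the unstable cone; from UDF, HYP, T2 of project RZ).  `F = f^[n]`, `n`, `θ` from HYP, `R` a bound of `‖P i‖` on `M`, `ε1`
small, `ε` the `δ` of UDF for `ε1` and the maps `F` and `id` (`der M id x = Pi M x`).  Let `w = y - x`, `‖w‖ ≤ ε`, `‖P i x w‖ ≤ ‖P 2 x w‖` for `i = 0, 1`.  Then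
`‖w‖ ≤ ‖Pi M x w‖ + ε1 ‖w‖`, so `‖w‖ ≤ 4 ‖P 2 x w‖`; with `D = der M F x`, `F y - F x = D w + e`, `‖e‖ ≤ ε1 ‖w‖`, `P i (F x) (F y - F x) = D (P i x w) + P i (F x) e`;
HYP: `‖D P i x w‖ ≤ θ ‖D P 2 x w‖`, `‖P 2 x w‖ ≤ θ ‖D P 2 x w‖`.  So for small `ε1` the difference `F y - F x` is again in the cone and `‖P 2 (F x) (F y - F x)‖ ≥
θ'^(-1) ‖P 2 x w‖`, `θ' = 2 θ / (1 + θ) < 1`.  Induction on `J`: `R ε ≥ ‖P 2 (F^[J] x) (F^[J] y - F^[J] x)‖ ≥ θ'^(-J) ‖P 2 x w‖ ≥ θ'^(-J) ‖w‖ / 4`. -/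
def StmtCON : Prop := ∀ (N K : ℕ) (M : Set (E K)) (m : Measure (E K)) (f f' : E K → E K)
  (P : Fin 3 → E K → End K), ClosedManifold N K M m → IsDiffeo 1 M f f' → PartHyp M f f' P →
  ∃ n : ℕ, 1 ≤ n ∧ ∃ ε C θ : ℝ, 0 < ε ∧ 0 < C ∧ 0 < θ ∧ θ < 1 ∧ ∀ J : ℕ, ∀ x ∈ M, ∀ y ∈ M,
  (∀ k ≤ J, ‖(f^[n])^[k] y - (f^[n])^[k] x‖ ≤ ε) →
  (∀ i : Fin 3, i ≠ 2 → ‖P i x (y - x)‖ ≤ ‖P 2 x (y - x)‖) → ‖y - x‖ ≤ C * θ ^ J

/-- PACKET TRL (sets with short intersections with all lines of direction `e`).  For `h ≤ 1` let `k` be `0, .., ⌊1/(2h)⌋`: the translates `T + (2 k h) e` are pairwise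
disjoint (a common point gives `z, z + t e ∈ T` with `|t| ≥ 2h > h`), measurable and contained in the ball of radius `ρ + ‖e‖`; so `(⌊1/(2h)⌋ + 1) volume T ≤ V`, `volume
T ≤ 2 h V`.  For `h > 1`: `volume T ≤ V ≤ 2 h V`. -/
def StmtTRL : Prop := ∀ (N : ℕ) (e z0 : E N) (ρ : ℝ), e ≠ 0 → ∃ C : ℝ, 0 < C ∧
  ∀ (T : Set (E N)) (h : ℝ), MeasurableSet T → T ⊆ Metric.closedBall z0 ρ → 0 < h →
  (∀ z ∈ T, ∀ t : ℝ, z + t • e ∈ T → |t| ≤ h) → volume T ≤ ENNReal.ofReal (C * h)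

/-- PACKET VOL (volume of groups; from CON, TRL, T1 of project RZ).  `n, ε, θ` from CON.  Let `x0 ∈ M`, `c` a chart at `x0` with `LebesgueChart c m`, `z0 = φ x0`, `u ≠ 0` with
`P 2 x0 u = u`, `e = fderiv φ x0 u`, so `fderiv ψ z0 e = u` (T1).  `ψ` is strictly differentiable at `z0`, `P i` are continuous on `M`: there is `ρ > 0` such that for
`z, z + t e` in the closed ball `B` around `z0`, `x = ψ z`, `y = ψ (z + t e)`: `‖P i x (y - x)‖ ≤ ‖P 2 x (y - x)‖` for `i ≠ 2` and `‖y - x‖ ≥ |t| ‖u‖ / 2`.  If `S ⊆ M`,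
`Tog (f^[n]) ε J S`, then the closure of `S` has the same properties (`f` is continuous on the compact set `M`), so let `S` be compact; `T = {z ∈ B | ψ z ∈ S}` is compact,
`m (ψ '' T) = volume T` (`LebesgueChart`), and `|t| ≤ 2 C θ^J / ‖u‖` for `z, z + t e ∈ T` (CON): TRL.  Finitely many sets `ψ '' B` cover `M`, `m Mᶜ = 0`. -/
def StmtVOL : Prop := ∀ (N K : ℕ) (M : Set (E K)) (m : Measure (E K)) (f f' : E K → E K)
  (P : Fin 3 → E K → End K), ClosedManifold N K M m → IsDiffeo 1 M f f' → PartHyp M f f' P →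
  ∃ n : ℕ, 1 ≤ n ∧ ∃ ε C θ : ℝ, 0 < ε ∧ 0 < C ∧ 0 < θ ∧ θ < 1 ∧ ∀ (J : ℕ) (S : Set (E K)),
  S ⊆ M → Tog (f^[n]) ε J S → m S ≤ ENNReal.ofReal (C * θ ^ J)

/-- PACKET FCV (finite covers).  The functions `F^[k]`, `k ≤ L`, are uniformly continuous on the compact set `M`. -/
def StmtFCV : Prop := ∀ (K : ℕ) (M : Set (E K)) (F : E K → E K), IsCompact M → MapsTo F M M →
  ContinuousOn F M → ∀ ε > 0, ∀ L : ℕ, ∃ (a : ℕ) (V : Fin a → Set (E K)), 1 ≤ a ∧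
  (∀ i, V i ⊆ M ∧ Tog F ε L (V i)) ∧ ∀ x ∈ M, ∃ i, x ∈ V i

/-- PACKET BLK (orbits near closed orbits).  Every `z ∈ Λ` has a period `t ∈ [4, 8]` (`A t z = z`; a multiple of the given one).  `(A 1)^[n])^[k] x = A (n k) x` on `M`.  Let `ε1 ≤ 1` be such that
`‖A s z - A s' z'‖ ≤ ε / 3` for `z, z' ∈ M`, `‖z - z'‖ ≤ ε1`, `s, s' ∈ [-1, 9]`, `|s - s'| ≤ ε1` (uniform continuity).  If `A t z = z`, `A t' z' = z'`, `t, t' ∈
[4, 8]`, `‖z - z'‖ ≤ ε1`, `|t - t'| ≤ ε1 / (n L)`, then for `T ∈ [0, n L]`: `T = j t + s`, `0 ≤ s ≤ t`, `j ≤ T / 4`, `A T z = A s z`, `A T z' = A (s + j (t - t')) z'`: `‖A T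
z - A T z'‖ ≤ ε / 3`.  Cover `M` by `C1` sets of diameter `≤ ε1` and `[4, 8]` by `C2 L` intervals of length `≤ ε1 / (n L)`: this gives `C L` classes of pairs `(z, t)`.  Let `η`
be such that `‖A T x - A T z‖ ≤ ε / 3` for `x, z ∈ M`, `‖x - z‖ < η`, `T ∈ [0, n L]`, and `V i` the set of all `x ∈ M` with `‖x - z‖ < η` for some `(z, t)` of the class `i`. -/
def StmtBLK : Prop := ∀ (K : ℕ) (s : WithTop ℕ∞) (M Λ : Set (E K)) (A : ℝ → E K → E K) (n : ℕ),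
  IsCompact M → Flow s M A → Λ ⊆ M → (∀ z ∈ Λ, ∃ t, 0 < t ∧ t ≤ 8 ∧ A t z = z) → 1 ≤ n →
  ∀ ε > 0, ∃ C : ℕ, ∀ L : ℕ, 1 ≤ L → ∃ η > 0, ∃ V : Fin (C * L) → Set (E K),
  (∀ i, V i ⊆ M ∧ Tog ((A 1)^[n]) ε L (V i)) ∧
  ∀ x ∈ M, (∃ z ∈ Λ, ‖x - z‖ < η) → ∃ i, x ∈ V i

/-- PACKET CNT (counting).  Words `p : Fin J → Fin b ⊕ Fin a` with at most `d` letters `inr`; their number is at most `(b + 1)^J a^d`: `1 ≤ a^d ∏_j w (p j)` with `w (inl i) = 1`, `w (inr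
i) = 1/a`, and `∑_p ∏_j w (p j) = (∑ w)^J = (b + 1)^J` (`Fintype.sum_pow` or `Finset.prod_univ_sum`).  For `x` in the set on the left let `p j = inl i` with `F^[j L] x ∈ VB i` if `F^[j L] x ∈ U`,
and `inr i` with `F^[j L] x ∈ VA i` otherwise.  The set of all `x ∈ M` with a given word `p` satisfies `Tog F ε (J * L)` (`k = j L + i`, `i ≤ L`, `j < J`). -/
def StmtCNT : Prop := ∀ (K : ℕ) (M U : Set (E K)) (m : Measure (E K)) (F : E K → E K) (ε : ℝ)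
  (L a b : ℕ) (VA : Fin a → Set (E K)) (VB : Fin b → Set (E K)), MapsTo F M M → 1 ≤ a →
  (∀ i, VA i ⊆ M ∧ Tog F ε L (VA i)) → (∀ i, VB i ⊆ M ∧ Tog F ε L (VB i)) →
  (∀ x ∈ M, ∃ i, x ∈ VA i) → (∀ x ∈ M, x ∈ U → ∃ i, x ∈ VB i) → ∀ (J d : ℕ) (w : ENNReal),
  1 ≤ J → (∀ S : Set (E K), S ⊆ M → Tog F ε (J * L) S → m S ≤ w) →
  m {x | x ∈ M ∧ Set.ncard {j | j < J ∧ F^[j * L] x ∉ U} ≤ d} ≤
    (((b + 1) ^ J * a ^ d : ℕ) : ENNReal) * w

/-- PACKET BAS (the basin).  `Λ = {z ∈ M | InSupport μ z}` is closed in `M`, nonempty, `μ Λᶜ = 0` (second countability).  `φ y = min 1 (infDist y Λ / η)` is continuous, `∫ φ dμ = 0`, so `(1/n')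
∑_{k<n'} φ (f^[k] x) → 0`.  `(f^[n])^[j L] x = f^[n j L] x`; if its distance to `Λ` is `≥ η` then `φ = 1` there.  So the number of these `j < J` is at most `∑_{k < n L J} φ (f^[k] x) =
o(n L J)`. -/
def StmtBAS : Prop := ∀ (K : ℕ) (M : Set (E K)) (f : E K → E K) (μ : Measure (E K)) (x : E K)
  (n L : ℕ) (η δ : ℝ), IsCompact M → MapsTo f M M → IsProbabilityMeasure μ → μ Mᶜ = 0 →
  InBasin M f μ x → x ∈ M → 1 ≤ n → 1 ≤ L → 0 < η → 0 < δ → ∀ᶠ J : ℕ in atTop,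
  (Set.ncard {j | j < J ∧ (f^[n])^[j * L] x ∉ {y | ∃ z, z ∈ M ∧ InSupport μ z ∧ ‖y - z‖ < η}} :
    ℝ) ≤ δ * J

/-- PACKET NOP: captain. -/
def StmtNOP : Prop := ∀ (N K : ℕ) (s : WithTop ℕ∞) (M : Set (E K)) (m μ : Measure (E K))
  (A : ℝ → E K → E K) (P : Fin 3 → E K → End K), 1 ≤ s → ClosedManifold N K M m → Flow s M A →
  PartHyp M (A 1) (A (-1)) P → FullBasin M m (A 1) μ → ∃ p ∈ M, InSupport μ p ∧ NoPeriod A 8 p

theorem stmtTOF1 (h : StmtTOF) (hN : StmtNOP) : StmtTOF1 := by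
  intro N K r s M m μ A P hr hrs hs hM hA hP hμ
  have hs1 : (1 : WithTop ℕ∞) ≤ s := le_trans (by exact_mod_cast hr) hrs
  obtain ⟨p, hp, h1, h2⟩ := hN N K s M m μ A P hs1 hM hA hP hμ
  exact h N K r s M m μ A P p hr hrs hs hM hA hP hμ hp h1 h2

end Pool.Agent.Helper56.TOF
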