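import Pool.Agent.Helper56.TOF.Goals2

/-!
# Project TOF: finite covers by groups
-/

set_option autoImplicit false

open Set Filter Topology MeasureTheory

open scoped ContDiff

namespace Pool.Agent.Helper56.TOF

open Pool.Agent.Helper56.RZ Pool.Agent.Helper30.CIR

theorem gFCV : StmtFCV := by
  intro K M F hM hF hc ε hε L
  have hck : ∀ k, ContinuousOn (F^[k]) M := by
    intro k
    induction k with
    | zero => exact continuousOn_id
    | succ k ih =>
      rw [Function.iterate_succ']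
      exact hc.comp ih (hF.iterate k)
  -- every point has a good neighbourhood
  have hloc : ∀ x ∈ M, ∃ W ∈ 𝓝[M] x, Tog F ε L (M ∩ W) := by
    intro x hx
    have h1 : ∀ k ∈ Finset.range (L + 1), ∀ᶠ y in 𝓝[M] x, ‖F^[k] y - F^[k] x‖ < ε / 2 := by
      intro k _
      have h2 := (hck k x hx)
      have h3 := Metric.tendsto_nhds.1 h2 (ε / 2) (by positivity)
      simpa [dist_eq_norm] using h3
    have h2 := (Finset.eventually_all (Finset.range (L + 1))).2 h1
    refine ⟨_, h2, ?_⟩
    rintro y ⟨-, hy⟩ z ⟨-, hz⟩ k hk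
    have a1 := hy k (Finset.mem_range.2 (by omega))
    have a2 := hz k (Finset.mem_range.2 (by omega))
    calc ‖F^[k] z - F^[k] y‖ = ‖(F^[k] z - F^[k] x) - (F^[k] y - F^[k] x)‖ := by congr 1; abel
      _ ≤ ‖F^[k] z - F^[k] x‖ + ‖F^[k] y - F^[k] x‖ := norm_sub_le _ _
      _ ≤ ε := by linarith
  choose! W hW hT using hloc
  obtain ⟨t, ht, hcov⟩ := hM.elim_nhdsWithin_subcover W hW
  -- one more set makes the family nonempty
  refine ⟨t.card + 1, fun i => if h : i.1 < t.card then M ∩ W (t.equivFin.symm ⟨i.1, h⟩) else ∅,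
    by omega, fun i => ?_, fun x hx => ?_⟩
  · by_cases h : i.1 < t.card
    · simp only [h, dif_pos]
      exact ⟨inter_subset_left, hT _ (ht _ (t.equivFin.symm ⟨i.1, h⟩).2)⟩
    · simp only [h, dif_neg, not_false_eq_true]
      exact ⟨empty_subset _, fun x hx => absurd hx (notMem_empty x)⟩
  · obtain ⟨y, hy, hxy⟩ := mem_iUnion₂.1 (hcov hx)
    have h1 := (t.equivFin ⟨y, hy⟩).2
    refine ⟨⟨(t.equivFin ⟨y, hy⟩).1, by omega⟩, ?_⟩
    simp only [h1, dif_pos]
    refine ⟨hx, ?_⟩
    simpa using hxy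

end Pool.Agent.Helper56.TOF
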