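import Pool.Agent.Helper56.TOF.Goals
import Pool.Agent.Helper56.RZ.AuxF

/-!
# Project TOF: assembly
-/

set_option autoImplicit false

open Set Filter Topology MeasureTheory

open scoped ContDiff

namespace Pool.Agent.Helper56.TOF

open Pool.Agent.Helper56.RZ Pool.Agent.Helper30.CIR

theorem flow_diffeo {K : ℕ} {s : WithTop ℕ∞} {M : Set (E K)} {A : ℝ → E K → E K}
    (h : Flow s M A) (t : ℝ) : IsDiffeo s M (A t) (A (-t)) := by
  have hsm : ∀ t, ContDiffOn ℝ s (A t) M := fun t => by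
    have h1 : ContDiffOn ℝ s (fun x : E K => ((t, x) : ℝ × E K)) M :=
      (contDiff_const.prodMk contDiff_id).contDiffOn
    exact h.smooth.comp h1 fun x hx => ⟨mem_univ _, hx⟩
  refine ⟨h.maps t, h.maps (-t), fun x hx => ?_, fun x hx => ?_, hsm t, hsm (-t)⟩
  · rw [← h.add (-t) t x hx, neg_add_cancel, h.zero x hx]
  · rw [← h.add t (-t) x hx, add_neg_cancel, h.zero x hx]

theorem norm_iter_const_add {N : ℕ} (a : ℝ) (f : E N → ℝ) (k : ℕ) (z : E N) :
    ‖iteratedFDeriv ℝ k (fun z => a + f z) z‖ ≤ |a| + ‖iteratedFDeriv ℝ k f z‖ := by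
  rcases k with _ | k
  · rw [norm_iteratedFDeriv_zero, norm_iteratedFDeriv_zero]
    exact norm_add_le _ _
  · rw [← norm_iteratedFDeriv_fderiv, ← norm_iteratedFDeriv_fderiv (f := f)]
    have h1 : fderiv ℝ (fun z => a + f z) = fderiv ℝ f := by
      funext y
      exact fderiv_const_add a
    rw [h1]
    linarith [abs_nonneg a]

theorem fin (hPRO : StmtPRO) (hBOX : StmtBOX) (hSMO : StmtSMO) (hSMC : StmtSMC)
    (hCLC : StmtCLC) (hHCL : StmtHCL) (hDFF : StmtDFF) (hGDR : StmtGDR) (hJK : StmtJK)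
    (hMEB : StmtMEB) (hNEB : StmtNEB) (hXF : StmtXF) (hCE0 : StmtCE0) (hCE1 : StmtCE1)
    (hPER : StmtPER) : StmtTOF := by
  intro N K r s M m μ A P p hr hrs hs hMan hA hPH hμ hp hsup hNP ι _ c L hL ε hε
  have hr1 : (1 : WithTop ℕ∞) ≤ (r : WithTop ℕ∞) := by exact_mod_cast hr
  have hs1 : (1 : WithTop ℕ∞) ≤ s := hr1.trans hrs
  obtain ⟨b, B, tau, hbox⟩ := hBOX N K s M m A p hs1 hs hMan hA hp hNP
  have hBp : 0 < B p := (hbox.near p hp hbox.bp.ne').1
  obtain ⟨b0, hb0, hb0p⟩ : ∃ b0 : ℝ, 0 < b0 ∧ 2 * b0 ≤ B p :=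
    ⟨B p / 2, by linarith, by linarith⟩
  obtain ⟨δc, hδc, hclc⟩ := hCLC N K r s M A hrs hA ι c L hL ε hε
  obtain ⟨z0, -, Φ, Φ', hpair⟩ := hPRO 1 one_pos
  obtain ⟨q1, hq1⟩ := hSMC N K r s M A b B tau p b0 z0 Φ hr hrs hs hbox hb0 hpair.pf ι c L hL
    (δc / 2) (by positivity)
  have hf1 : IsDiffeo 1 M (A 1) (A (-1)) := (flow_diffeo hA 1).of_le' hs1
  obtain ⟨δP, hδP, hper⟩ := hPER K M (A 1) (A (-1)) P hMan.compact hf1 hPH (min ε (1 / 2))
    (lt_min hε (by norm_num))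
  obtain ⟨al0, hal0, hal0', q2, hq2⟩ := hHCL N K r s M m A b B tau p b0 z0 Φ Φ' hr hrs hs hMan
    hA hbox hb0 hpair.pf hpair.pf' δP hδP
  -- the step
  obtain ⟨h, hh0, hh1, hh2, hh3⟩ : ∃ h : ℝ, 0 < h ∧ (r + 1) * h ≤ 1 / 10 ∧
      1 + (r + 1) * h ≤ al0 ∧ (r + 1) * h ≤ δc / 2 := by
    have hr0 : (0 : ℝ) < r + 1 := by positivity
    have hm : 0 < min (al0 - 1) (δc / 2) := lt_min (by linarith) (by positivity)
    have e : ((r : ℝ) + 1) * (min (al0 - 1) (δc / 2) / (r + 1)) = min (al0 - 1) (δc / 2) := by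
      field_simp
    refine ⟨min (al0 - 1) (δc / 2) / (r + 1), by positivity, ?_, ?_, ?_⟩
    · rw [e]
      exact (min_le_left _ _).trans (by linarith)
    · rw [e]
      linarith [min_le_left (al0 - 1) (δc / 2)]
    · rw [e]
      exact min_le_right _ _
  obtain ⟨q3, hq3⟩ := hMEB N K r s M m μ A b B tau p b0 z0 Φ Φ' h hr hrs hs hMan hA hbox hb0
    hb0p hpair hμ hp hsup hh0 hh1
  -- the frequency
  obtain ⟨q, hqq1, hqq2, hqq3, hqp, hqz⟩ : ∃ q : ℕ, q1 ≤ q ∧ q2 ≤ q ∧ q3 ≤ q ∧ 1 ≤ q ∧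
      cq q r < z0 := by
    obtain ⟨n, hn⟩ := exists_nat_gt (1 / z0)
    refine ⟨max (max q1 q2) (max q3 (max 1 n)), ?_, ?_, ?_, ?_, ?_⟩
    · exact (le_max_left _ _).trans (le_max_left _ _)
    · exact (le_max_right _ _).trans (le_max_left _ _)
    · exact (le_max_left _ _).trans (le_max_right _ _)
    · exact (le_max_left _ _).trans ((le_max_right _ _).trans (le_max_right _ _))
    · have hz0 : 0 < z0 := hpair.pf.pos
      generalize hqd : max (max q1 q2) (max q3 (max 1 n)) = q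
      have hq1' : 1 ≤ q := by
        rw [← hqd]
        exact (le_max_left _ _).trans ((le_max_right _ _).trans (le_max_right _ _))
      have hqn : n ≤ q := by
        rw [← hqd]
        exact (le_max_right _ _).trans ((le_max_right _ _).trans (le_max_right _ _))
      have hq1r : (1 : ℝ) ≤ q := by exact_mod_cast hq1'
      have hqnr : (n : ℝ) ≤ q := by exact_mod_cast hqn
      have h1 : (q : ℝ) ≤ (q : ℝ) ^ r := le_self_pow₀ hq1r (by omega)
      have h2 : 1 / z0 < (q : ℝ) ^ r := by linarith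
      rw [cq, inv_lt_comm₀ (by linarith) hz0, ← one_div]
      exact h2
  have hkpos : ∀ al ∈ Icc (1 : ℝ) (1 + (r + 1) * h), ∀ x ∈ M,
      0 < kapT A (uu Φ B tau b0 q r al) x := fun al hal x hx => by
    have := (hq2 q hqq2 al hal.1 (hal.2.trans hh2) x hx).2.2.2
    linarith
  obtain ⟨al, hal, hbad⟩ := hq3 q hqq3 hkpos
  have hal1 : 1 ≤ al := hal.1
  have hal2 : al ≤ al0 := hal.2.trans hh2
  have hal3 : al ≤ 11 / 10 := hal2.trans hal0'
  have hal4 : al ≤ 2 := by linarith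
  have hkp := hkpos al hal
  obtain ⟨u, hu⟩ : ∃ u, u = uu Φ B tau b0 q r al := ⟨_, rfl⟩
  obtain ⟨u', hu'⟩ : ∃ u', u' = ui A Φ' B tau b0 q r al := ⟨_, rfl⟩
  have hdh : IsDiffeo s M (hT A u) (hT A u') := by
    rw [hu, hu']
    exact hDFF K s M A b B tau p b0 z0 Φ Φ' q r al hs hA hbox hb0 hpair hqp hqz hal1 hal3
  have hcl : ∀ x ∈ M, ‖hT A u x - x‖ ≤ δP ∧ ‖der M (hT A u) x - Pi M x‖ ≤ δP ∧
      ‖der M (hT A u') x - Pi M x‖ ≤ δP := fun x hx => by
    obtain ⟨a1, a2, a3, -⟩ := hq2 q hqq2 al hal1 hal2 x hx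
    rw [hu, hu']
    exact ⟨a1, a2, a3⟩
  -- smoothness of `u`
  have husm : ContDiffOn ℝ s u M := by
    have h1 := hSMO K s M A b B tau p b0 z0 Φ q r hs hbox hb0 hpair.pf hqp hqz
    have h2 : ContDiffOn ℝ s (fun x : E K => ((al, x) : ℝ × E K)) M :=
      (contDiff_const.prodMk contDiff_id).contDiffOn
    have h3 := h1.comp h2 fun x hx => ⟨by
      change (0 : ℝ) < al
      linarith, hx⟩
    rw [hu]
    exact contDiffOn_const.add h3
  have husm1 : ContDiffOn ℝ 1 u M := husm.of_le hs1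
  -- the splitting
  obtain ⟨Q, hQPH, hQc⟩ := hper (hT A u) (hT A u') (hdh.of_le' hs1) hcl
  -- the generator is central
  obtain ⟨hgc, hgX⟩ := hXF K s M A hs1 hA
  have hfX : ∀ x ∈ M, der M (A 1) x (gen A x) = gen A (A 1 x) := fun x hx => by
    obtain ⟨-, -, h3, -⟩ := hgX x hx
    have h4 := h3 (A 1) (A 1 x) (fun t => t) 1 (hA.maps 1) hf1.smooth (hA.maps 1 hx)
      (Eventually.of_forall fun t => by
        rw [← hA.add 1 t x hx, ← hA.add t 1 x hx, add_comm]) (hasDerivAt_id 0)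
    rw [one_smul] at h4
    exact h4
  have hP1 : ∀ x ∈ M, P 1 x (gen A x) = gen A x := hCE0 K M (A 1) (A (-1)) P (gen A) hMan.compact
    hf1 hPH hgc (fun x hx => (hgX x hx).2.1) hfX
  have hg1 : IsDiffeo 1 M (A 1 ∘ hT A u) (hT A u' ∘ A (-1)) := hf1.comp' (hdh.of_le' hs1)
  have hP0 : ∀ x ∈ M, ∀ i, i ≠ 1 → P i x (gen A x) = 0 := fun x hx i hi => by
    have h1 := hPH.orth x hx i 1 hi
    have h2 : P i x (P 1 x (gen A x)) = 0 := DFunLike.congr_fun h1 (gen A x)
    rwa [hP1 x hx] at h2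
  have hQ1 : ∀ x ∈ M, Q 1 x (gen A x) = gen A x := by
    refine hCE1 K M _ _ Q (gen A) (kapT A u) hMan.compact hg1 hQPH (fun x hx => (hgX x hx).2.1)
      (fun x hx => ⟨by rw [hu]; exact hkp x hx, ?_⟩) fun x hx => ?_
    · have h1 := (hGDR K s M A u hs1 hs hA husm1 x hx).2.2.2 1
      simpa using h1
    · have hq : ∀ i, ‖(Q i x - P i x) (gen A x)‖ ≤ 1 / 2 * ‖gen A x‖ := fun i =>
        ((Q i x - P i x).le_opNorm _).trans (mul_le_mul_of_nonneg_right
          ((hQc x hx i).trans (min_le_right _ _)) (norm_nonneg _))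
      have hi : ∀ i, i ≠ 1 → ‖Q i x (gen A x)‖ ≤ 1 / 2 * ‖gen A x‖ := fun i hi => by
        have h1 := hq i
        rwa [sub_apply, hP0 x hx i hi, sub_zero] at h1
      have h1 : 1 / 2 * ‖gen A x‖ ≤ ‖Q 1 x (gen A x)‖ := by
        have h2 := hq 1
        rw [sub_apply, hP1 x hx] at h2
        have h3 := norm_sub_norm_le (gen A x) (Q 1 x (gen A x))
        rw [norm_sub_rev] at h3
        linarith
      exact ⟨(hi 0 (by decide)).trans h1, (hi 2 (by decide)).trans h1⟩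
  -- continuity of `kapT`
  have hkc : ContinuousOn (kapT A u) M := by
    have h1 := (hJK K s M A b B tau p b0 z0 Φ q r hs1 hs hA hbox hb0 hpair.pf hqp hqz).1
    have h2 : ContinuousOn (fun x : E K => ((al, x) : ℝ × E K)) M :=
      (continuous_const.prodMk continuous_id).continuousOn
    have h3 := h1.comp h2 fun x hx => ⟨by
      change (0 : ℝ) < al
      linarith, hx⟩
    rw [hu]
    exact h3
  have hneg : Negative M m (A 1 ∘ hT A u) Q := by
    refine hNEB K s M m A u Q hs1 hs hMan.compact hMan.null hA husm1 hdh.maps hkc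
      (fun x hx => by rw [hu]; exact hkp x hx) hQ1 ?_
    rw [hu]
    exact hbad
  -- `C^r` closeness
  have hcr : CrClose r ε c L (A 1) (A 1 ∘ hT A u) := by
    have h1 := hclc u (husm.of_le hrs) fun i k hk z hz => by
      have h2 := hq1 q hqq1 al hal1 hal4 i k hk z hz
      have h3 := norm_iter_const_add (1 / al - 1)
        (fun z => th Φ B tau b0 q r al ((c i).ψ z)) k z
      have h4 : |1 / al - 1| ≤ δc / 2 := by
        have h5 : 1 / al ≤ 1 := by
          rw [div_le_one (by linarith)]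
          exact hal1
        have h6 : 1 - (al - 1) ≤ 1 / al := by
          rw [le_div_iff₀ (by linarith)]
          nlinarith
        have h7 : al - 1 ≤ δc / 2 := by linarith [hal.2]
        rw [abs_le]
        constructor <;> linarith
      rw [hu]
      change ‖iteratedFDeriv ℝ k
        (fun z => 1 / al - 1 + th Φ B tau b0 q r al ((c i).ψ z)) z‖ ≤ δc
      linarith
    intro i k hk z hz
    refine le_trans (le_of_eq ?_) (h1 i k hk z hz)
    congr 1
    refine (Filter.EventuallyEq.iteratedFDeriv ℝ ?_ k).eq_of_nhds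
    filter_upwards [(c i).openV.mem_nhds ((hL i).2 hz)] with y hy
    have hyM := ((c i).mapsψ y hy).1
    change A 1 (A (u ((c i).ψ y)) ((c i).ψ y)) - _ = _
    rw [← hA.add 1 _ _ hyM]
  refine ⟨A 1 ∘ hT A u, hT A u' ∘ A (-1), Q, (flow_diffeo hA 1).comp' hdh, hQPH, hcr,
    fun x hx i => (hQc x hx i).trans (min_le_left _ _), hneg⟩

end Pool.Agent.Helper56.TOF
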