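import Pool.Agent.Helper56.TOF.Nop
import Pool.Agent.Helper56.TOF.FCV
import Pool.Agent.Helper56.CIR.PER
import Pool.Agent.Helper4.TOF.PSI
import Pool.Agent.Helper45.TOF.PRO
import Pool.Agent.Helper66.TOF.ORB
import Pool.Agent.Helper64.TOF.CLK
import Pool.Agent.Helper12.TOF.HO1
import Pool.Agent.Helper26.TOF.HO2
import Pool.Agent.Helper13.TOF.NU
import Pool.Agent.Helper14.TOF.SMC
import Pool.Agent.Helper17.TOF.CLC
import Pool.Agent.Helper25.TOF.SM1
import Pool.Agent.Helper91.TOF.GC1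
import Pool.Agent.Helper93.CIR.XF
import Pool.Agent.Helper78.TOF.HCL
import Pool.Agent.Helper62.TOF.DFF
import Pool.Agent.Helper16.TOF.JK
import Pool.Agent.Helper24.TOF.ENU
import Pool.Agent.Helper67.TOF.LIN
import Pool.Agent.Helper7.TOF.AVG
import Pool.Agent.Helper30.TOF.POS
import Pool.Agent.Helper30.TOF.AB2
import Pool.Agent.Helper44.CIR.CE0
import Pool.Agent.Helper77.CIR.CE1
import Pool.Agent.Helper25.TOF.TRL
import Pool.Agent.Helper62.TOF.VOL
import Pool.Agent.Helper50.TOF.BLK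
import Pool.Agent.Helper67.TOF.CNT
import Pool.Agent.Helper30.TOF.HYP
import Pool.Agent.Helper71.TOF.Cone
import Pool.Agent.Helper17.TOF.BAS
import Pool.Agent.Helper35.TOF.BOX
import Pool.Agent.Helper33.TOF.SMO
import Pool.Agent.Helper46.TOF.GDR
import Pool.Agent.Helper85.TOF.BIR
import Pool.Agent.Helper66.TOF.MEB
import Pool.Agent.Helper89.TOF.NEB
import Pool.Agent.Helper20.TOF.UDF

/-!
# Project TOF: the main theorem
-/

set_option autoImplicit false

namespace Pool.Agent.Helper56.TOF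

theorem nop' : StmtNOP :=
  nop (Pool.Agent.Helper62.TOF.gVOL
      (Pool.Agent.Helper71.TOF.gCON Pool.Agent.Helper20.TOF.gUDF Pool.Agent.Helper30.TOF.gHYP)
      Pool.Agent.Helper25.TOF.gTRL) gFCV Pool.Agent.Helper50.TOF.gBLK
    Pool.Agent.Helper67.TOF.gCNT Pool.Agent.Helper17.TOF.gBAS Pool.Agent.Helper30.TOF.gPOS

theorem tof : StmtTOF := by
  have hXF := Pool.Agent.Helper93.CIR.gXF
  have hPSI := Pool.Agent.Helper4.TOF.gPSI
  have hPRO := Pool.Agent.Helper45.TOF.gPRO hPSI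
  have hORB := Pool.Agent.Helper66.TOF.gORB hPSI
  have hCLK := Pool.Agent.Helper64.TOF.gCLK hPSI hORB
  have hHO1 := Pool.Agent.Helper12.TOF.gHO1
  have hHO2 := Pool.Agent.Helper26.TOF.gHO2 hPSI hHO1
  have hNU := Pool.Agent.Helper13.TOF.gNU
  have hBOX := Pool.Agent.Helper35.TOF.gBOX
  have hSMO := Pool.Agent.Helper33.TOF.gSMO
  have hSMC := Pool.Agent.Helper14.TOF.gSMC
  have hCLC := Pool.Agent.Helper17.TOF.gCLC
  have hSM1 := Pool.Agent.Helper25.TOF.gSM1 hSMO hSMC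
  have hGC1 := Pool.Agent.Helper91.TOF.gGC1
  have hGDR := Pool.Agent.Helper46.TOF.gGDR hXF
  have hHCL := Pool.Agent.Helper78.TOF.gHCL hXF hSMO hSM1 hGC1 hGDR
  have hDFF := Pool.Agent.Helper62.TOF.gDFF hPSI hSMO
  have hJK := Pool.Agent.Helper16.TOF.gJK hSMO
  have hENU := Pool.Agent.Helper24.TOF.gENU
  have hLIN := Pool.Agent.Helper67.TOF.gLIN
  have hBIR := Pool.Agent.Helper85.TOF.gBIR
  have hAVG := Pool.Agent.Helper7.TOF.gAVG hCLK hHO2 hNU hLIN hENU hBIR hJK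
  have hPOS := Pool.Agent.Helper30.TOF.gPOS
  have hAB2 := Pool.Agent.Helper30.TOF.gAB2
  have hMEB := Pool.Agent.Helper66.TOF.gMEB hAVG hAB2 hPOS hJK hNU
  have hNEB := Pool.Agent.Helper89.TOF.gNEB hXF hGDR
  exact fin hPRO hBOX hSMO hSMC hCLC hHCL hDFF hGDR hJK hMEB hNEB hXF
    Pool.Agent.Helper44.CIR.gCE0 Pool.Agent.Helper77.CIR.gCE1 Pool.Agent.Helper56.CIR.gPER

theorem tof1 : StmtTOF1 := stmtTOF1 tof nop'

end Pool.Agent.Helper56.TOF
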