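import Pool.Agent.Helper56.TOF.Goals2
import Pool.Agent.Helper56.TOF.Fin

/-!
# Project TOF: the support of the physical measure is not made of short closed orbits
-/

set_option autoImplicit false

open Set Filter Topology MeasureTheory

open scoped ContDiff

namespace Pool.Agent.Helper56.TOF

open Pool.Agent.Helper56.RZ Pool.Agent.Helper30.CIR

theorem exists_len (C1 : ℕ) {θ : ℝ} (h0 : 0 < θ) (h1 : θ < 1) :
    ∃ L : ℕ, 1 ≤ L ∧ ((C1 * L : ℕ) + 1 : ℝ) * θ ^ L ≤ 1 / 4 := by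
  have t1 : Tendsto (fun L : ℕ => (L : ℝ) * θ ^ L) atTop (𝓝 0) :=
    tendsto_self_mul_const_pow_of_lt_one h0.le h1
  have t2 : Tendsto (fun L : ℕ => θ ^ L) atTop (𝓝 0) := tendsto_pow_atTop_nhds_zero_of_lt_one h0.le h1
  have t3 : Tendsto (fun L : ℕ => (C1 : ℝ) * ((L : ℝ) * θ ^ L) + θ ^ L) atTop (𝓝 0) := by
    simpa using (t1.const_mul (C1 : ℝ)).add t2
  have e := t3.eventually (ge_mem_nhds (show (0 : ℝ) < 1 / 4 by norm_num))
  obtain ⟨L, hL, hL1⟩ := (e.and (eventually_ge_atTop 1)).exists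
  refine ⟨L, hL1, le_trans (le_of_eq ?_) hL⟩
  push_cast
  ring

theorem nop (hVOL : StmtVOL) (hFCV : StmtFCV) (hBLK : StmtBLK) (hCNT : StmtCNT)
    (hBAS : StmtBAS) (hPOS : StmtPOS) : StmtNOP := by
  intro N K s M m μ A P hs1 hM hA hP hμ
  by_contra hcon
  push Not at hcon
  have hf1 : IsDiffeo 1 M (A 1) (A (-1)) := (flow_diffeo hA 1).of_le' hs1
  obtain ⟨n, hn, ε, C, θ, hε, hC, hθ0, hθ1, hvol⟩ := hVOL N K M m (A 1) (A (-1)) P hM hf1 hP
  have hper : ∀ z ∈ {z | z ∈ M ∧ InSupport μ z}, ∃ t, 0 < t ∧ t ≤ 8 ∧ A t z = z := by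
    rintro z ⟨hz, hz'⟩
    have h1 := hcon z hz hz'
    rw [NoPeriod] at h1
    push Not at h1
    exact h1
  obtain ⟨C1, hblk⟩ := hBLK K s M {z | z ∈ M ∧ InSupport μ z} A n hM.compact hA
    (fun z hz => hz.1) hper hn ε hε
  obtain ⟨L, hL1, hL⟩ := exists_len C1 hθ0 hθ1
  obtain ⟨η, hη, VB, hVB1, hVB2⟩ := hblk L hL1
  have hFm : MapsTo ((A 1)^[n]) M M := (hA.maps 1).iterate n
  have hFc : ContinuousOn ((A 1)^[n]) M := by
    clear hn hvol hblk hVB1 hFm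
    induction n with
    | zero => exact continuousOn_id
    | succ n ih =>
      rw [Function.iterate_succ']
      exact hf1.smooth.continuousOn.comp ih ((hA.maps 1).iterate n)
  obtain ⟨a, VA, ha, hVA1, hVA2⟩ := hFCV K M ((A 1)^[n]) hM.compact hFm hFc ε hε L
  obtain ⟨D, hD1, hD⟩ : ∃ D : ℕ, 1 ≤ D ∧ a ≤ 2 ^ D :=
    ⟨a, ha, (Nat.lt_two_pow_self (n := a)).le⟩
  obtain ⟨U, hU⟩ : ∃ U : Set (E K), U = {y | ∃ z, z ∈ M ∧ InSupport μ z ∧ ‖y - z‖ < η} :=
    ⟨_, rfl⟩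
  obtain ⟨G, hG⟩ : ∃ G : ℕ → Set (E K), ∀ J, G J =
      {x | x ∈ M ∧ Set.ncard {j | j < J ∧ ((A 1)^[n])^[j * L] x ∉ U} ≤ J / D} := ⟨_, fun _ => rfl⟩
  have hmG : ∀ J, 1 ≤ J → m (G J) ≤ ENNReal.ofReal (C * (1 / 2) ^ J) := by
    intro J hJ
    rw [hG]
    refine (hCNT K M U m ((A 1)^[n]) ε L a (C1 * L) VA VB hFm ha hVA1 hVB1 hVA2
      (fun x hx hxU => hVB2 x hx (by
        rw [hU] at hxU
        obtain ⟨z, h1, h2, h3⟩ := hxU
        exact ⟨z, ⟨h1, h2⟩, h3⟩)) J (J / D) (ENNReal.ofReal (C * θ ^ (J * L))) hJ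
      (fun S hS hT => hvol (J * L) S hS hT)).trans ?_
    rw [← ENNReal.ofReal_natCast, ← ENNReal.ofReal_mul (by positivity)]
    apply ENNReal.ofReal_le_ofReal
    have h1 : (a : ℝ) ^ (J / D) ≤ 2 ^ J := by
      have h2 : a ^ (J / D) ≤ 2 ^ J := calc
        a ^ (J / D) ≤ (2 ^ D) ^ (J / D) := Nat.pow_le_pow_left hD _
        _ = 2 ^ (D * (J / D)) := (pow_mul 2 D (J / D)).symm
        _ ≤ 2 ^ J := Nat.pow_le_pow_right (by norm_num) (Nat.mul_div_le J D)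
      exact_mod_cast h2
    have h3 : (((C1 * L : ℕ) + 1 : ℝ) * θ ^ L) ^ J ≤ (1 / 4) ^ J :=
      pow_le_pow_left₀ (by positivity) hL J
    push_cast at h3 ⊢
    calc ((C1 : ℝ) * L + 1) ^ J * (a : ℝ) ^ (J / D) * (C * θ ^ (J * L))
        ≤ ((C1 : ℝ) * L + 1) ^ J * 2 ^ J * (C * θ ^ (J * L)) := by gcongr
      _ = C * 2 ^ J * (((C1 : ℝ) * L + 1) * θ ^ L) ^ J := by
          rw [mul_pow, ← pow_mul, mul_comm J L]
          ring
      _ ≤ C * 2 ^ J * (1 / 4) ^ J := by gcongr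
      _ = C * (1 / 2) ^ J := by
          rw [mul_assoc, ← mul_pow]
          norm_num
  have hsum : ∑' J : ℕ, m {x | x ∈ G (J + 1)} ≠ ⊤ := by
    have h1 : ∑' J : ℕ, m {x | x ∈ G (J + 1)} ≤
        ∑' J : ℕ, ENNReal.ofReal (C * (1 / 2) ^ (J + 1)) :=
      ENNReal.tsum_le_tsum fun J => hmG (J + 1) (by omega)
    have h2 : Summable (fun J : ℕ => C * (1 / 2 : ℝ) ^ (J + 1)) := by
      apply Summable.mul_left
      exact (summable_nat_add_iff 1).2 (summable_geometric_of_lt_one (by norm_num) (by norm_num))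
    exact ne_top_of_le_ne_top h2.tsum_ofReal_ne_top h1
  have hBC := measure_setOfPred_frequently_eq_zero hsum
  have hae : ∀ᵐ x ∂m, ∃ᶠ J in atTop, x ∈ G (J + 1) := by
    have h1 : ∀ᵐ x ∂m, x ∈ M := by
      rw [ae_iff]
      exact hM.null
    filter_upwards [h1, hμ.2.2] with x hx hxb
    have h2 := hBAS K M (A 1) μ x n L η (1 / D) hM.compact (hA.maps 1) hμ.1 hμ.2.1 hxb hx hn hL1
      hη (by positivity)
    have h3 : ∀ᶠ J in atTop, x ∈ G J := by
      filter_upwards [h2] with J hJ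
      rw [hG, hU]
      refine ⟨hx, ?_⟩
      rw [Nat.le_div_iff_mul_le (by omega)]
      have hD0 : (0 : ℝ) < D := by exact_mod_cast hD1
      have h4 := hJ
      rw [one_div, inv_mul_eq_div, le_div_iff₀ hD0] at h4
      exact_mod_cast h4
    exact ((tendsto_add_atTop_nat 1).eventually h3).frequently
  have h0 : m univ = 0 := by
    have h1 : ∀ᵐ x ∂m, False := by
      have h2 : ∀ᵐ x ∂m, ¬ ∃ᶠ J in atTop, x ∈ G (J + 1) := by
        rw [ae_iff]
        refine le_antisymm ((measure_mono ?_).trans hBC.le) bot_le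
        intro x hx
        exact not_not.1 hx
      filter_upwards [hae, h2] with x h3 h4
      exact h4 h3
    rw [ae_iff] at h1
    simpa using h1
  have h1 := hPOS N K M m univ hM isOpen_univ (by simpa using hM.nonempty)
  have h2 : m (M ∩ univ) ≤ m univ := measure_mono (subset_univ _)
  rw [h0] at h2
  exact absurd h1 (not_lt.2 h2)

end Pool.Agent.Helper56.TOF
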