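import Pool.Agent.Helper30.CIR.Statement

/-!
# Project TOF (MP_f32c9c_an): time-one maps of flows, definitions of the statement

`M` is a closed submanifold of `ℝ^K` (definitions of Helper56, project RZ, and Helper30, project CIR).
-/

set_option autoImplicit false

open Set Filter Topology MeasureTheory

open scoped ContDiff

namespace Pool.Agent.Helper56.TOF

open Pool.Agent.Helper56.RZ Pool.Agent.Helper30.CIR

/-- `x` is in the support of the measure `μ` -/
def InSupport {K : ℕ} (μ : Measure (E K)) (x : E K) : Prop :=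
  ∀ U : Set (E K), IsOpen U → x ∈ U → μ U ≠ 0

/-- `x` is not a fixed point of the flow and not on a closed orbit of period at most `L` -/
def NoPeriod {K : ℕ} (A : ℝ → E K → E K) (L : ℝ) (x : E K) : Prop :=
  ∀ t, 0 < t → t ≤ L → A t x ≠ x

/-- the main theorem -/
def StmtTOF : Prop := ∀ (N K r : ℕ) (s : WithTop ℕ∞) (M : Set (E K)) (m μ : Measure (E K))
  (A : ℝ → E K → E K) (P : Fin 3 → E K → End K) (p : E K), 1 ≤ r → (r : WithTop ℕ∞) ≤ s → s ≤ ∞ →
  ClosedManifold N K M m → Flow s M A → PartHyp M (A 1) (A (-1)) P → FullBasin M m (A 1) μ →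
  p ∈ M → InSupport μ p → NoPeriod A 8 p → Destroyed (N := N) r s M m (A 1) P

end Pool.Agent.Helper56.TOF
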